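import Pool.Agent.TH167.DD.Choose
import Pool.Agent.TH167.SH.Final

set_option autoImplicit false

/-!
# Independence of adjoint conditions
-/

namespace Pool.Agent.TH167.DD

open MvPolynomial Pool.Agent.W609 Pool.Agent.W609.CR Pool.Agent.TH167.SH

theorem cnt_zero {K : Type} [Field K] {Ls : List (K × K)} {p : Fin 2 → K}
    (h : ∀ l ∈ Ls, ¬ onl l p) : cnt Ls p = 0 := by
  induction Ls with
  | nil => rfl
  | cons l Ls ih =>
    rw [cnt_cons_neg (h l List.mem_cons_self)]
    exact ih fun l' hl' => h l' (List.mem_cons_of_mem _ hl')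

theorem sum_upd {s : ℕ} (w r : Fin s → ℕ) (i : Fin s) (h : r i ≠ 0) :
    ∑ j, w j * r j = ∑ j, w j * Function.update r i (r i - 1) j + w i := by
  classical
  rw [← Finset.add_sum_erase _ _ (Finset.mem_univ i),
    ← Finset.add_sum_erase Finset.univ (fun j => w j * Function.update r i (r i - 1) j)
      (Finset.mem_univ i)]
  have h1 : ∑ j ∈ Finset.univ.erase i, w j * Function.update r i (r i - 1) j =
      ∑ j ∈ Finset.univ.erase i, w j * r j := by
    refine Finset.sum_congr rfl fun j hj => ?_
    rw [Function.update_of_ne (Finset.ne_of_mem_erase hj)]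
  rw [h1]
  simp only [Function.update_self]
  obtain ⟨k, hk⟩ : ∃ k, r i = k + 1 := ⟨r i - 1, by omega⟩
  rw [hk, Nat.add_sub_cancel]
  ring

/-- The configurations of lines exist. -/
theorem exists_cfg {K : Type} [Field K] [CharZero K] [IsAlgClosed K] {s : ℕ}
    {G : MvPolynomial (Fin 3) K} {d : ℕ} (hG : Irreducible G) (hGd : G.IsHomogeneous d)
    (hd : 2 ≤ d) {P : Fin s → Fin 2 → K} (hP : Function.Injective P) {w : Fin s → ℕ}
    (hw : ∀ i, Ord (aff (P i)) (w i) G) : ∀ (n : ℕ) (r : Fin s → ℕ), ∑ i, r i = n →
      ∃ Ls Q, Cfg G d P w r Ls Q ∧ Ls.length = n := by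
  classical
  intro n
  induction n with
  | zero =>
    intro r hr
    have h0 : ∀ i, r i = 0 := fun i => (Finset.sum_eq_zero_iff.1 hr) i (Finset.mem_univ i)
    refine ⟨[], ∅, ⟨?_, ?_, ?_, ?_, ?_, ?_, ?_, ?_, ?_⟩, rfl⟩
    · intro l hl
      exact absurd hl List.not_mem_nil
    · intro l hl
      exact absurd hl List.not_mem_nil
    · intro i
      exact Finset.notMem_empty _
    · intro q hq
      exact absurd hq (Finset.notMem_empty _)
    · intro q hq
      exact absurd hq (Finset.notMem_empty _)
    · intro q hq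
      exact absurd hq (Finset.notMem_empty _)
    · intro i
      rw [h0 i]
      rfl
    · intro i l hl
      exact absurd hl List.not_mem_nil
    · simp [h0]
  | succ n ih =>
    intro r hr
    obtain ⟨i0, hi0⟩ : ∃ i0, r i0 ≠ 0 := by
      by_contra hcon
      push Not at hcon
      simp [hcon] at hr
    have hsum : ∑ i, Function.update r i0 (r i0 - 1) i = n := by
      have := sum_upd (fun _ => 1) r i0 hi0
      simp only [one_mul] at this
      omega
    obtain ⟨Ls, Q, hC, hlen⟩ := ih _ hsum
    obtain ⟨l, Q0, c1, c2, c3, c4, c5, c6, c7⟩ := choose_line hG hGd hd (hw i0)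
      ((Finset.univ.erase i0).image P ∪ Q) (by
        rw [Finset.mem_union, not_or]
        refine ⟨?_, hC.disj i0⟩
        rw [Finset.mem_image]
        rintro ⟨j, hj, hj2⟩
        exact Finset.ne_of_mem_erase hj (hP hj2))
    have hT1 : ∀ i, i ≠ i0 → ¬ onl l (P i) := fun i hi => c2 _ (Finset.mem_union_left _
      (Finset.mem_image_of_mem P (Finset.mem_erase.2 ⟨hi, Finset.mem_univ i⟩)))
    have hT2 : ∀ q ∈ Q, ¬ onl l q := fun q hq => c2 _ (Finset.mem_union_right _ hq)
    have hold : ∀ q ∈ Q0, ∀ l' ∈ Ls, ¬ onl l' q := by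
      intro q hq l' hl' hon
      obtain ⟨d1, d2, d3, d4⟩ := c6 q hq
      rcases hC.root l' hl' q hon d3 with ⟨i, rfl⟩ | h
      · by_cases hi : i = i0
        · rw [hi] at d2
          exact d2 rfl
        · exact hT1 i hi d1
      · exact hT2 q h d1
    refine ⟨l :: Ls, Q ∪ Q0, ⟨?_, ?_, ?_, ?_, ?_, ?_, ?_, ?_, ?_⟩, by
      rw [List.length_cons, hlen]⟩
    · intro l' hl'
      rcases List.mem_cons.1 hl' with rfl | h
      · exact c3
      · exact hC.deg l' h
    · intro l' hl' q hq hq2
      rcases List.mem_cons.1 hl' with rfl | h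
      · rcases c7 q hq hq2 with h1 | h1
        · exact Or.inl ⟨i0, h1⟩
        · exact Or.inr (Finset.mem_union_right _ h1)
      · rcases hC.root l' h q hq hq2 with h1 | h1
        · exact Or.inl h1
        · exact Or.inr (Finset.mem_union_left _ h1)
    · intro i hi
      rcases Finset.mem_union.1 hi with h | h
      · exact hC.disj i h
      · obtain ⟨d1, d2, d3, d4⟩ := c6 _ h
        by_cases hi2 : i = i0
        · rw [hi2] at d2
          exact d2 rfl
        · exact hT1 i hi2 d1
    · intro q hq
      rcases Finset.mem_union.1 hq with h | h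
      · rw [cnt_cons_neg (hT2 q h)]
        exact hC.cntQ q h
      · rw [cnt_cons_pos (c6 q h).1, cnt_zero (hold q h)]
    · intro q hq l' hl' hon
      rcases Finset.mem_union.1 hq with h | h
      · rcases List.mem_cons.1 hl' with rfl | h2
        · exact absurd hon (hT2 q h)
        · exact hC.ntQ q h l' h2 hon
      · rcases List.mem_cons.1 hl' with rfl | h2
        · exact (c6 q h).2.2.2
        · exact absurd hon (hold q h l' h2)
    · intro q hq
      rcases Finset.mem_union.1 hq with h | h
      · exact hC.zQ q h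
      · exact (c6 q h).2.2.1
    · intro i
      by_cases hi : i = i0
      · rw [hi, cnt_cons_pos c1, hC.cntP i0, Function.update_self]
        omega
      · rw [cnt_cons_neg (hT1 i hi), hC.cntP i, Function.update_of_ne hi]
    · intro i l' hl' hon
      rcases List.mem_cons.1 hl' with rfl | h2
      · by_cases hi : i = i0
        · rw [hi]
          exact c4
        · exact absurd hon (hT1 i hi)
      · exact hC.ntP i l' h2 hon
    · have hdisj : Disjoint Q Q0 := by
        rw [Finset.disjoint_left]
        intro q hq hq0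
        exact hT2 q hq (c6 q hq0).1
      rw [Finset.card_union_of_disjoint hdisj, sum_upd w r i0 hi0, List.length_cons]
      have := hC.card
      have h2 : d * (Ls.length + 1) = d * Ls.length + d := by ring
      omega

end Pool.Agent.TH167.DD
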