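import Pool.Agent.TH167.DD.Adj
import Pool.Agent.H248R6.Dim

set_option autoImplicit false

/-!
# Independence of adjoint conditions: the bound
-/

namespace Pool.Agent.TH167.DD

open MvPolynomial Pool.Agent.W609 Pool.Agent.W609.CR Pool.Agent.TH167.SH

/-- The inequality of Bezout with additional simple points. -/
theorem bezQ {K : Type} [Field K] {s : ℕ} {P : Fin s → Fin 2 → K} (hP : Function.Injective P)
    {u w : Fin s → ℕ} {G F : MvPolynomial (Fin 3) K} {e d : ℕ} (hG : Irreducible G)
    (hGe : G.IsHomogeneous e) (hu : ∀ j, Van (aff (P j)) (u j) G) (hF0 : F ≠ 0)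
    (hFd : F.IsHomogeneous d) (hw : ∀ j, Van (aff (P j)) (w j) F) (hnd : ¬ G ∣ F)
    {Q : Finset (Fin 2 → K)} (hQ : ∀ j, P j ∉ Q) (hQG : ∀ q ∈ Q, eval (aff q) G = 0)
    (hQF : ∀ q ∈ Q, eval (aff q) F = 0) :
    ∑ j, u j * w j + Q.card ≤ e * d := by
  classical
  let E := Q.equivFin
  let P' : Fin (s + Q.card) → Fin 2 → K := Fin.append P (fun i => (E.symm i).1)
  have hP' : Function.Injective P' := by
    intro a b
    refine Fin.addCases (fun i => ?_) (fun i => ?_) a
    · refine Fin.addCases (fun j => ?_) (fun j => ?_) b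
      · intro h
        simp only [P', Fin.append_left] at h
        rw [hP h]
      · intro h
        simp only [P', Fin.append_left, Fin.append_right] at h
        exact absurd (h ▸ (E.symm j).2) (hQ i)
    · refine Fin.addCases (fun j => ?_) (fun j => ?_) b
      · intro h
        simp only [P', Fin.append_left, Fin.append_right] at h
        exact absurd (h ▸ (E.symm i).2) (hQ j)
      · intro h
        simp only [P', Fin.append_right] at h
        rw [E.symm.injective (Subtype.ext h)]
  have h1 := bez (P := P') hP' (u := Fin.append u (fun _ => 1)) (w := Fin.append w (fun _ => 1))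
    hG hGe (fun j => by
      refine Fin.addCases (fun i => ?_) (fun i => ?_) j
      · simp only [P', Fin.append_left]
        exact hu i
      · simp only [P', Fin.append_right]
        exact van_one'.2 (hQG _ (E.symm i).2)) hF0 hFd (fun j => by
      refine Fin.addCases (fun i => ?_) (fun i => ?_) j
      · simp only [P', Fin.append_left]
        exact hw i
      · simp only [P', Fin.append_right]
        exact van_one'.2 (hQF _ (E.symm i).2)) hnd
  rw [Fin.sum_univ_add] at h1
  simp only [Fin.append_left, Fin.append_right, mul_one, Finset.sum_const, Finset.card_univ,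
    Fintype.card_fin, smul_eq_mul] at h1
  exact h1

/-- The multiples of a form. -/
noncomputable def mult {K : Type} [Field K] (G : MvPolynomial (Fin 3) K) (m : ℕ) :
    Submodule K (MvPolynomial (Fin 3) K) :=
  (homogeneousSubmodule (Fin 3) K m).map (LinearMap.mulLeft K G)

theorem mult_finite {K : Type} [Field K] (G : MvPolynomial (Fin 3) K) (m : ℕ) :
    Module.Finite K ↥(mult G m) := by
  have : Module.Finite K ↥(homogeneousSubmodule (Fin 3) K m) :=
    Module.Finite.iff_fg.2 (homogeneousSubmodule_fg _ _ m)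
  unfold mult
  infer_instance

theorem mult_finrank {K : Type} [Field K] {G : MvPolynomial (Fin 3) K} (hG0 : G ≠ 0) (m : ℕ) :
    Module.finrank K ↥(mult G m) = (m + 2).choose 2 := by
  rw [← H248R6.finrank_homog (K := K) m]
  have hinj : Function.Injective (LinearMap.mulLeft K G) := by
    intro a b hab
    rw [LinearMap.mulLeft_apply, LinearMap.mulLeft_apply] at hab
    exact mul_left_cancel₀ hG0 hab
  exact (LinearEquiv.finrank_eq (Submodule.equivMapOfInjective _ hinj _)).symm

theorem mem_mult {K : Type} [Field K] {G F : MvPolynomial (Fin 3) K} {d n m : ℕ}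
    (hG : G.IsHomogeneous d) (hG0 : G ≠ 0) (hF : F.IsHomogeneous n) (hdvd : G ∣ F)
    (hm : F ≠ 0 → d + m = n) : F ∈ mult G m := by
  obtain ⟨h, hh⟩ := hdvd
  refine ⟨h, ?_, hh.symm⟩
  by_cases hF0 : F = 0
  · have : h = 0 := by
      rw [hF0, eq_comm, mul_eq_zero] at hh
      exact hh.resolve_left hG0
    rw [this]
    exact Submodule.zero_mem _
  · have hhh := Pool.Agent.Chud.homog_of_dvd hF hF0 ⟨G, by rw [hh, mul_comm]⟩
    have h1 := hG.mul hhh
    rw [← hh] at h1
    have h2 := h1.inj_right hF hF0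
    have h3 := hm hF0
    have h4 : h.totalDegree = m := by omega
    rw [h4] at hhh
    exact hhh

/-- The multiplicities of the adjoint conditions. -/
def al {s : ℕ} (S : Finset (Fin s)) (w : Fin s → ℕ) : Fin s → ℕ :=
  fun j => if j ∈ S then w j else w j - 1

/-- The multiplicities of the dual conditions. -/
def be {s : ℕ} (S : Finset (Fin s)) (w : Fin s → ℕ) : Fin s → ℕ :=
  fun j => if j ∈ S then w j - 1 else w j

/-- The adjoint conditions are independent. -/
theorem adj {K : Type} [Field K] [CharZero K] [IsAlgClosed K] {s : ℕ}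
    {G : MvPolynomial (Fin 3) K} {d : ℕ} (hG : Irreducible G) (hGd : G.IsHomogeneous d)
    (hd : 2 ≤ d) {P : Fin s → Fin 2 → K} (hP : Function.Injective P) {w : Fin s → ℕ}
    (hw : ∀ i, Ord (aff (P i)) (w i) G) (S : Finset (Fin s)) (hS : ∑ j ∈ S, w j < 3 * d) :
    Module.finrank K ↥(VS (fun j => aff (P j)) (al S w) d) +
      ∑ j, (if j ∈ S then (w j + 1).choose 2 else (w j).choose 2) ≤ (d + 2).choose 2 := by
  classical
  have hG0 := hG.ne_zero
  -- a point outside of the curve
  obtain ⟨p0, hp0⟩ := TT.exists_pt hGd hG0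
  obtain ⟨N, hN⟩ : ∃ N, N = d + ∑ j, w j + 5 := ⟨_, rfl⟩
  let P' : Fin (s + 1) → Fin 2 → K := Fin.cons p0 P
  let w' : Fin (s + 1) → ℕ := Fin.cons 0 w
  let r' : Fin (s + 1) → ℕ := Fin.cons N w
  by_cases hmem : ∃ j, P j = p0 ∧ False
  · obtain ⟨j, -, h⟩ := hmem
    exact h.elim
  have hne : ∀ j, w j ≠ 0 → P j ≠ p0 := by
    intro j hj h
    apply hp0
    rw [← h]
    exact van_one'.1 (van_mono (by omega) (hw j).1)
  -- we may choose the point outside of `P`
  obtain ⟨p1, hp1, hp1P⟩ : ∃ p1 : Fin 2 → K, eval (aff p1) G ≠ 0 ∧ ∀ j, P j ≠ p1 := by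
    obtain ⟨H, hH0, hHh, hHP⟩ : ∃ H : MvPolynomial (Fin 3) K, H ≠ 0 ∧
        H.IsHomogeneous H.totalDegree ∧ ∀ j, eval (aff (P j)) H = 0 := by
      refine ⟨∏ j, mf 0 (P j), Finset.prod_ne_zero_iff.2 fun j _ => mf_ne 0 _, ?_, fun j => ?_⟩
      · have h1 : (∏ j, mf 0 (P j)).IsHomogeneous (∑ j : Fin s, 1) :=
          IsHomogeneous.prod _ _ _ fun j _ => mf_hom 0 _
        have h2 := h1.totalDegree (Finset.prod_ne_zero_iff.2 fun j _ => mf_ne 0 _)
        rwa [← h2] at h1
      · rw [map_prod]
        exact Finset.prod_eq_zero (Finset.mem_univ j) (by rw [eval_mf, sub_self])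
    obtain ⟨p1, hp1⟩ := TT.exists_pt (hGd.mul hHh) (mul_ne_zero hG0 hH0)
    rw [map_mul] at hp1
    refine ⟨p1, left_ne_zero_of_mul hp1, fun j h => ?_⟩
    apply right_ne_zero_of_mul hp1
    rw [← h]
    exact hHP j
  let P1 : Fin (s + 1) → Fin 2 → K := Fin.cons p1 P
  have hP1 : Function.Injective P1 := by
    rw [Fin.cons_injective_iff]
    refine ⟨?_, hP⟩
    rintro ⟨j, hj⟩
    exact hp1P j hj
  have hw1 : ∀ i, Ord (aff (P1 i)) (w' i) G := by
    intro i
    refine Fin.cases ?_ (fun j => ?_) i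
    · show Ord (aff p1) 0 G
      refine ⟨van_zero _ _, fun h => hp1 ?_⟩
      exact van_one'.1 h
    · exact hw j
  obtain ⟨Ls, Q, hC, hlen⟩ := exists_cfg hG hGd hd hP1 hw1 _ r' rfl
  obtain ⟨k, hk⟩ : ∃ k, k = Ls.length := ⟨_, rfl⟩
  have hk2 : k = N + ∑ j, w j := by
    rw [hk, hlen, Fin.sum_univ_succ]
    rfl
  have hcard : Q.card + ∑ j, w j * w j = d * k := by
    have h1 := hC.card
    rw [Fin.sum_univ_succ, ← hk] at h1
    have h2 : w' 0 * r' 0 = 0 := by
      show 0 * N = 0
      rw [zero_mul]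
    rw [h2, zero_add] at h1
    exact h1
  let A := VS (fun j => aff (P j)) (al S w) d
  let B := VS (fun j => aff (P j)) (be S w) (k - 3)
  have hAf : Module.Finite K ↥A := vs_fin (fun j => aff (P j)) (al S w) d
  have hBf : Module.Finite K ↥B := vs_fin (fun j => aff (P j)) (be S w) (k - 3)
  have hQP : ∀ j, P j ∉ Q := fun j => hC.disj j.succ
  have hdual := hC.dual hGd hG0 hw1 (a := d) (b := k - 3) (by rw [← hk]; omega) A B
    (fun f hf => ((mem_VS _ _ _ _).1 hf).1) (fun f hf => ((mem_VS _ _ _ _).1 hf).1) (by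
    intro f hf g hg i
    refine Fin.cases ?_ (fun j => ?_) i
    · intro h
      exact absurd rfl h
    · intro hj
      show Van (aff (P j)) (w j + w j - 1) (f * g)
      have hj' : w j ≠ 0 := hj
      have h1 := van_mul (((mem_VS _ _ _ _).1 hf).2 j) (((mem_VS _ _ _ _).1 hg).2 j)
      have h2 : al S w j + be S w j = w j + w j - 1 := by
        unfold al be
        split_ifs <;> omega
      rwa [h2] at h1)
  -- the kernels
  have hM1 := mult_finite G 0
  have hM2 := mult_finite G (k - 3 - d)
  have hdA := ev_dim Q A (mult G 0) (by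
    intro f hf hfQ
    have hf' := (mem_VS _ _ _ _).1 hf
    refine mem_mult hGd hG0 hf'.1 ?_ fun _ => by omega
    by_contra hnd
    have hf0 : f ≠ 0 := fun h => hnd (by rw [h]; exact dvd_zero _)
    have h1 := bezQ hP hG hGd (fun j => (hw j).1) hf0 hf'.1 hf'.2 hnd hQP hC.zQ hfQ
    have h2 : ∑ j, w j * w j ≤ ∑ j, w j * al S w j + ∑ j, w j := by
      rw [← Finset.sum_add_distrib]
      refine Finset.sum_le_sum fun j _ => ?_
      unfold al
      split_ifs
      · omega
      · rcases Nat.eq_zero_or_pos (w j) with h | h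
        · rw [h]
        · obtain ⟨v, hv⟩ : ∃ v, w j = v + 1 := ⟨w j - 1, by omega⟩
          rw [hv, Nat.add_sub_cancel]
          nlinarith
    have h3 : d * k = d * (d + ∑ j, w j + 5) + d * ∑ j, w j := by
      rw [hk2, hN]
      ring
    nlinarith [Nat.zero_le (∑ j, w j)])
  have hdB := ev_dim Q B (mult G (k - 3 - d)) (by
    intro f hf hfQ
    have hf' := (mem_VS _ _ _ _).1 hf
    refine mem_mult hGd hG0 hf'.1 ?_ fun _ => by omega
    by_contra hnd
    have hf0 : f ≠ 0 := fun h => hnd (by rw [h]; exact dvd_zero _)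
    have h1 := bezQ hP hG hGd (fun j => (hw j).1) hf0 hf'.1 hf'.2 hnd hQP hC.zQ hfQ
    have h2 : ∑ j, w j * w j ≤ ∑ j, w j * be S w j + ∑ j ∈ S, w j := by
      have h3 : ∑ j ∈ S, w j = ∑ j, if j ∈ S then w j else 0 := by
        rw [Finset.sum_ite_mem, Finset.univ_inter]
      rw [h3, ← Finset.sum_add_distrib]
      refine Finset.sum_le_sum fun j _ => ?_
      unfold be
      split_ifs
      · rcases Nat.eq_zero_or_pos (w j) with h | h
        · rw [h]
        · obtain ⟨v, hv⟩ : ∃ v, w j = v + 1 := ⟨w j - 1, by omega⟩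
          rw [hv, Nat.add_sub_cancel]
          nlinarith
      · omega
    have h3 : d * (k - 3) + 3 * d = d * k := by
      obtain ⟨k', hk'⟩ : ∃ k', k = k' + 3 := ⟨k - 3, by omega⟩
      rw [hk', Nat.add_sub_cancel]
      ring
    omega)
  rw [mult_finrank hG0] at hdA hdB
  have hdim := le_dim (be S w) P (k - 3)
  rw [← vs_eq_forms] at hdim
  show Module.finrank K ↥A + _ ≤ _
  have hdim' : (k - 3 + 2).choose 2 ≤ Module.finrank K ↥B + ∑ j, (be S w j + 1).choose 2 := hdim
  -- arithmetic
  have hsum : ∑ j, (be S w j + 1).choose 2 +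
      ∑ j, (if j ∈ S then (w j + 1).choose 2 else (w j).choose 2) = ∑ j, w j * w j := by
    rw [← Finset.sum_add_distrib]
    refine Finset.sum_congr rfl fun j _ => ?_
    have hc : ∀ v : ℕ, (v + 1).choose 2 + (v + 1 + 1).choose 2 = (v + 1) * (v + 1) := by
      intro v
      have a1 := H932R7.two_choose v
      have a2 := Nat.choose_succ_succ' (v + 1) 1
      have a3 := Nat.choose_succ_succ' (v + 2) 1
      have a4 : 2 * (v + 1).choose 2 = (v + 1) * v := by
        have := Nat.triangle_succ v
        rw [Nat.choose_two_right, Nat.add_sub_cancel]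
        exact Nat.mul_div_cancel' (by
          rw [mul_comm]
          exact (Nat.even_mul_succ_self v).two_dvd)
      have a5 : (v + 1 + 1).choose 2 = (v + 1).choose 1 + (v + 1).choose 2 := a2
      rw [a5, Nat.choose_one_right]
      nlinarith
    unfold be
    split_ifs with h
    · rcases Nat.eq_zero_or_pos (w j) with h0 | h0
      · rw [h0]
        rfl
      · obtain ⟨v, hv⟩ : ∃ v, w j = v + 1 := ⟨w j - 1, by omega⟩
        rw [hv, Nat.add_sub_cancel]
        exact hc v
    · rcases Nat.eq_zero_or_pos (w j) with h0 | h0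
      · rw [h0]
        rfl
      · obtain ⟨v, hv⟩ : ∃ v, w j = v + 1 := ⟨w j - 1, by omega⟩
        rw [hv, add_comm]
        exact hc v
  obtain ⟨m, hm⟩ : ∃ m, k - 3 = d + m := ⟨k - 3 - d, by omega⟩
  have hm2 : k - 3 - d = m := by omega
  have hkm : k = d + m + 3 := by omega
  rw [hm2] at hdB
  rw [hm] at hdim'
  have c1 : 2 * (d + m + 2).choose 2 = (d + m + 1) * (d + m + 2) := H932R7.two_choose (d + m)
  have c2 : 2 * (m + 2).choose 2 = (m + 1) * (m + 2) := H932R7.two_choose m
  have c3 : 2 * (d + 2).choose 2 = (d + 1) * (d + 2) := H932R7.two_choose d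
  have c4 : (0 + 2).choose 2 = 1 := rfl
  rw [c4] at hdA
  rw [hkm] at hcard
  nlinarith

end Pool.Agent.TH167.DD
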