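import Pool.Agent.TH167.DD.Loc

set_option autoImplicit false

/-!
# The theorem of Cayley and Bacharach for products of lines
-/

namespace Pool.Agent.TH167.DD

open MvPolynomial Pool.Agent.W609.CR Pool.Agent.TH167.SH

/-- The lines `Ls` meet the curve `G` transversally at the points `Q`, and at the points `P i`, of
multiplicity `w i`, through which there pass `r i` lines. -/
structure Cfg {K : Type} [Field K] {s : ℕ} (G : MvPolynomial (Fin 3) K) (d : ℕ)
    (P : Fin s → Fin 2 → K) (w r : Fin s → ℕ) (Ls : List (K × K)) (Q : Finset (Fin 2 → K)) :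
    Prop where
  deg : ∀ l ∈ Ls, gam l G ≠ 0 ∧ (gam l G).natDegree = d
  root : ∀ l ∈ Ls, ∀ p, onl l p → eval (aff p) G = 0 → (∃ i, p = P i) ∨ p ∈ Q
  disj : ∀ i, P i ∉ Q
  cntQ : ∀ q ∈ Q, cnt Ls q = 1
  ntQ : ∀ q ∈ Q, ∀ l ∈ Ls, onl l q → Nt G 1 l (q 0)
  zQ : ∀ q ∈ Q, eval (aff q) G = 0
  cntP : ∀ i, cnt Ls (P i) = r i
  ntP : ∀ i, ∀ l ∈ Ls, onl l (P i) → Nt G (w i) l (P i 0)
  card : Q.card + ∑ i, w i * r i = d * Ls.length

theorem eval_lp {K : Type} [Field K] {Ls : List (K × K)} {p : Fin 2 → K}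
    (h : eval (aff p) (lp Ls) = 0) : ∃ l ∈ Ls, onl l p := by
  induction Ls with
  | nil => simp [lp] at h
  | cons l Ls ih =>
    rw [lp_cons, map_mul, mul_eq_zero] at h
    rcases h with h | h
    · exact ⟨l, List.mem_cons_self, (eval_lin_iff l p).1 h⟩
    · obtain ⟨l', h1, h2⟩ := ih h
      exact ⟨l', List.mem_cons_of_mem _ h1, h2⟩

theorem eval_lp_zero {K : Type} [Field K] {Ls : List (K × K)} {p : Fin 2 → K}
    (h : cnt Ls p ≠ 0) : eval (aff p) (lp Ls) = 0 := by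
  induction Ls with
  | nil => exact absurd rfl h
  | cons l Ls ih =>
    rw [lp_cons, map_mul]
    by_cases hl : onl l p
    · rw [(eval_lin_iff l p).2 hl, zero_mul]
    · rw [cnt_cons_neg hl] at h
      rw [ih h, mul_zero]

theorem Cfg.mem {K : Type} [Field K] [CharZero K] {s : ℕ} {G : MvPolynomial (Fin 3) K} {d : ℕ}
    {P : Fin s → Fin 2 → K} {w r : Fin s → ℕ} {Ls : List (K × K)} {Q : Finset (Fin 2 → K)}
    (h : Cfg G d P w r Ls Q) (hG : G.IsHomogeneous d) (hG0 : G ≠ 0)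
    (hw : ∀ i, Ord (aff (P i)) (w i) G) {e : ℕ} {F : MvPolynomial (Fin 3) K}
    (hF : F.IsHomogeneous e) (hFP : ∀ i, w i ≠ 0 → Van (aff (P i)) (w i + r i - 1) F)
    (hFQ : ∀ q ∈ Q, eval (aff q) F = 0) (p : Fin 2 → K) : Mem G (lp Ls) p F := by
  by_cases hp : eval (aff p) G = 0
  · by_cases hp2 : eval (aff p) (lp Ls) = 0
    · obtain ⟨l, hl, hlp⟩ := eval_lp hp2
      rcases h.root l hl p hlp hp with ⟨i, rfl⟩ | hq
      · refine mem_of_van hG hG0 (hw i).1 Ls (fun l hl hlp => h.ntP i l hl hlp) e F hF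
          (Or.inr ?_)
        rw [h.cntP i]
        refine hFP i fun h0 => ?_
        have h1 := (hw i).2
        rw [h0, zero_add, van_one'] at h1
        exact h1 hp
      · refine mem_of_van hG hG0 (w := 1) (van_one'.2 hp) Ls (fun l hl hlp => h.ntQ p hq l hl hlp)
          e F hF (Or.inr ?_)
        rw [h.cntQ p hq]
        exact van_one'.2 (hFQ p hq)
    · exact ⟨lp Ls, hp2, 0, F, by ring⟩
  · exact ⟨G, hp, F, 0, by ring⟩

theorem lp_dvd {K : Type} [Field K] {G : MvPolynomial (Fin 3) K} :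
    ∀ (Ls : List (K × K)) (_ : ∀ l ∈ Ls, ¬ lin l ∣ G) (A : MvPolynomial (Fin 3) K)
      (_ : lp Ls ∣ A * G), lp Ls ∣ A := by
  intro Ls
  induction Ls with
  | nil =>
    intro _ A _
    simp [lp]
  | cons l Ls ih =>
    intro h A hA
    rw [lp_cons] at hA ⊢
    have h1 : lin l ∣ A * G := (Dvd.intro _ rfl).trans hA
    rcases (lin_irr l).prime.dvd_or_dvd h1 with h2 | h2
    · obtain ⟨A', hA'⟩ := h2
      rw [hA', mul_assoc] at hA
      have h3 := ih (fun l' hl' => h l' (List.mem_cons_of_mem _ hl')) A'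
        ((mul_dvd_mul_iff_left (lin_ne l)).1 hA)
      rw [hA']
      exact mul_dvd_mul_left _ h3
    · exact absurd h2 (h l List.mem_cons_self)

/-- The linear forms through a point. -/
noncomputable def mf {K : Type} [Field K] (b : Fin 2) (p : Fin 2 → K) : MvPolynomial (Fin 3) K :=
  X (Fin.castSucc b) - C (p b) * X 2

theorem mf_hom {K : Type} [Field K] (b : Fin 2) (p : Fin 2 → K) : (mf b p).IsHomogeneous 1 :=
  (isHomogeneous_X K _).sub ((isHomogeneous_X K 2).C_mul _)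

theorem eval_mf {K : Type} [Field K] (b : Fin 2) (p q : Fin 2 → K) :
    eval (aff q) (mf b p) = q b - p b := by
  fin_cases b <;> simp [mf, aff]

theorem mf_ne {K : Type} [Field K] (b : Fin 2) (p : Fin 2 → K) : mf b p ≠ 0 := by
  intro h
  have h1 := eval_mf b p (fun a => p a + 1)
  rw [h, map_zero] at h1
  simp at h1

theorem mf_irr {K : Type} [Field K] (b : Fin 2) (p : Fin 2 → K) : Irreducible (mf b p) := by
  classical
  apply irreducible_of_totalDegree_eq_one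
  · exact (mf_hom b p).totalDegree (mf_ne b p)
  · intro x hx
    have h1 := hx (Finsupp.single (Fin.castSucc b) 1)
    have h2 : (Finsupp.single (2 : Fin 3) 1 : Fin 3 →₀ ℕ) ≠ Finsupp.single (Fin.castSucc b) 1 := by
      intro h
      have h3 := Finsupp.single_left_injective one_ne_zero h
      revert h3
      fin_cases b <;> decide
    have h3 : coeff (Finsupp.single (Fin.castSucc b) 1) (mf b p) = 1 := by
      unfold mf
      rw [coeff_sub, coeff_C_mul, coeff_X, coeff_X, if_pos rfl, if_neg h2]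
      ring
    rw [h3] at h1
    exact isUnit_of_dvd_one h1

theorem mf_ndvd {K : Type} [Field K] (p : Fin 2 → K) : ¬ mf 0 p ∣ mf 1 p := by
  rintro ⟨c, hc⟩
  have h1 := congrArg (eval (aff ![p 0, p 1 + 1])) hc
  rw [map_mul, eval_mf, eval_mf] at h1
  simp at h1

theorem Hd.mul_one {K : Type} [Field K] {m a : MvPolynomial (Fin 3) K} {b n : ℕ}
    (hm : m.IsHomogeneous 1) (ha : Hd a b n) : Hd (m * a) b (n + 1) := by
  rcases ha with ha | ⟨k, hk, ha⟩
  · left
    rw [ha, mul_zero]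
  · exact Or.inr ⟨1 + k, by omega, hm.mul ha⟩

theorem Hd.neg {K : Type} [Field K] {a : MvPolynomial (Fin 3) K} {b n : ℕ}
    (ha : Hd a b n) : Hd (-a) b n := by
  rcases ha with ha | ⟨k, hk, ha⟩
  · left
    rw [ha, neg_zero]
  · exact Or.inr ⟨k, hk, ha.neg⟩

/-- The theorem of Cayley and Bacharach. -/
theorem Cfg.cb {K : Type} [Field K] [CharZero K] [IsAlgClosed K] {s : ℕ}
    {G : MvPolynomial (Fin 3) K} {d : ℕ} {P : Fin s → Fin 2 → K} {w r : Fin s → ℕ}
    {Ls : List (K × K)} {Q : Finset (Fin 2 → K)}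
    (h : Cfg G d P w r Ls Q) (hG : G.IsHomogeneous d) (hG0 : G ≠ 0)
    (hw : ∀ i, Ord (aff (P i)) (w i) G) {n : ℕ} (hn : n + 3 = d + Ls.length)
    {F : MvPolynomial (Fin 3) K} (hF : F.IsHomogeneous n)
    (hFP : ∀ i, w i ≠ 0 → Van (aff (P i)) (w i + r i - 1) F) {q0 : Fin 2 → K} (hq0 : q0 ∈ Q)
    (hFQ : ∀ q ∈ Q, q ≠ q0 → eval (aff q) F = 0) : eval (aff q0) F = 0 := by
  have key : ∀ b : Fin 2, ∃ a c, mf b q0 * F = a * G + c * lp Ls ∧ Hd a d (1 + n) ∧
      Hd c Ls.length (1 + n) := by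
    intro b
    have hhom := (mf_hom b q0).mul hF
    refine noether hG Ls h.deg (1 + n) (mf b q0 * F) hhom fun p => ?_
    refine h.mem hG hG0 hw hhom (fun i hi => ?_) (fun q hq => ?_) p
    · have := van_mul (van_zero (aff (P i)) (mf b q0)) (hFP i hi)
      rwa [zero_add] at this
    · by_cases hqq : q = q0
      · rw [map_mul, eval_mf, hqq, sub_self, zero_mul]
      · rw [map_mul, hFQ q hq hqq, mul_zero]
  obtain ⟨a1, b1, e1, ha1, hb1⟩ := key 0
  obtain ⟨a2, b2, e2, ha2, hb2⟩ := key 1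
  have hnd : ∀ l ∈ Ls, ¬ lin l ∣ G := by
    rintro l hl ⟨x, hx⟩
    apply (h.deg l hl).1
    rw [hx, map_mul, gam_lin, zero_mul]
  have hA : Hd (mf 1 q0 * a1 + -(mf 0 q0 * a2)) d (1 + n + 1) :=
    (ha1.mul_one (mf_hom 1 q0)).add (ha2.mul_one (mf_hom 0 q0)).neg
  have hdvd : lp Ls ∣ (mf 1 q0 * a1 + -(mf 0 q0 * a2)) := by
    refine lp_dvd (G := G) Ls hnd _ ⟨mf 0 q0 * b2 - mf 1 q0 * b1, ?_⟩
    linear_combination mf 0 q0 * e2 - mf 1 q0 * e1
  have hA0 : mf 1 q0 * a1 + -(mf 0 q0 * a2) = 0 := by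
    by_contra hne
    rcases hA with h0 | ⟨k, hk, hk2⟩
    · exact hne h0
    · obtain ⟨x, hx⟩ := hdvd
      have hx0 : x ≠ 0 := fun h0 => hne (by rw [hx, h0, mul_zero])
      have h1 := hk2.totalDegree hne
      rw [hx, MvPolynomial.totalDegree_mul_of_isDomain (lp_ne Ls) hx0,
        (lp_hom Ls).totalDegree (lp_ne Ls)] at h1
      omega
  have h1 : mf 0 q0 ∣ mf 1 q0 * a1 := ⟨a2, by linear_combination hA0⟩
  obtain ⟨a, ha⟩ := ((mf_irr 0 q0).prime.dvd_or_dvd h1).resolve_left (mf_ndvd q0)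
  have h2 : a2 = mf 1 q0 * a := by
    apply mul_left_cancel₀ (mf_ne 0 q0)
    rw [ha] at hA0
    linear_combination -hA0
  have h3 : mf 0 q0 * b2 = mf 1 q0 * b1 := by
    apply mul_right_cancel₀ (lp_ne Ls)
    rw [ha] at e1
    rw [h2] at e2
    linear_combination mf 1 q0 * e1 - mf 0 q0 * e2
  obtain ⟨b, hb⟩ := ((mf_irr 0 q0).prime.dvd_or_dvd (Dvd.intro _ h3)).resolve_left (mf_ndvd q0)
  have h4 : F = a * G + b * lp Ls := by
    apply mul_left_cancel₀ (mf_ne 0 q0)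
    rw [e1, ha, hb]
    ring
  rw [h4, map_add, map_mul, map_mul, h.zQ q0 hq0, eval_lp_zero (by rw [h.cntQ q0 hq0]; simp)]
  ring

end Pool.Agent.TH167.DD
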