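import Pool.Agent.TH167.DD.Gen

set_option autoImplicit false

/-!
# The choice of the lines
-/

namespace Pool.Agent.TH167.DD

open MvPolynomial Pool.Agent.W609 Pool.Agent.W609.CR Pool.Agent.TH167.SH

/-- The polar curve of a point. -/
noncomputable def polar {K : Type} [Field K] (p : Fin 2 → K) (G : MvPolynomial (Fin 3) K) :
    MvPolynomial (Fin 3) K :=
  C (p 0) * pderiv 0 G + C (p 1) * pderiv 1 G + pderiv 2 G

theorem polar_hom {K : Type} [Field K] (p : Fin 2 → K) {G : MvPolynomial (Fin 3) K} {d : ℕ}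
    (hG : G.IsHomogeneous d) : (polar p G).IsHomogeneous (d - 1) :=
  ((hG.pderiv.C_mul _).add (hG.pderiv.C_mul _)).add hG.pderiv

theorem deriv_gam {K : Type} [Field K] (l : K × K) (G : MvPolynomial (Fin 3) K) :
    Polynomial.derivative (gam l G) =
      gam l (pderiv 0 G) + Polynomial.C l.1 * gam l (pderiv 1 G) := by
  induction G using MvPolynomial.induction_on with
  | C c => simp [gam]
  | add f g hf hg =>
    rw [map_add, map_add, map_add, map_add, map_add, map_add, hf, hg]
    ring
  | mul_X f i hf =>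
    rw [map_mul, Polynomial.derivative_mul, hf, Derivation.leibniz, Derivation.leibniz,
      smul_eq_mul, smul_eq_mul, smul_eq_mul, smul_eq_mul, map_add, map_add, map_mul, map_mul,
      map_mul, map_mul]
    fin_cases i
    · simp [gam, pderiv_X]
      ring
    · simp [gam, pderiv_X]
      ring
    · simp [gam, pderiv_X]

theorem polar_gam {K : Type} [Field K] (p : Fin 2 → K) (x : K) {G : MvPolynomial (Fin 3) K}
    {d : ℕ} (hG : G.IsHomogeneous d) :
    (Polynomial.X - Polynomial.C (p 0)) * Polynomial.derivative (gam (lt p x) G) =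
      (d : Polynomial K) * gam (lt p x) G - gam (lt p x) (polar p G) := by
  have h1 := congrArg (gam (lt p x)) hG.sum_X_mul_pderiv
  rw [Fin.sum_univ_three, map_add, map_add, map_mul, map_mul, map_mul, map_nsmul,
    nsmul_eq_mul] at h1
  rw [← h1, deriv_gam]
  unfold polar
  rw [map_add, map_add, map_mul, map_mul]
  have e0 : gam (lt p x) (X 0) = Polynomial.X := by simp [gam]
  have e1 : gam (lt p x) (X 1) = Polynomial.C x * Polynomial.X + Polynomial.C (p 1 - x * p 0) := by
    simp [gam, lt]
  have e2 : gam (lt p x) (X 2) = 1 := by simp [gam]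
  have e3 : ∀ c, gam (lt p x) (C c) = Polynomial.C c := by
    intro c
    simp [gam]
  have e4 : (lt p x).1 = x := rfl
  rw [e0, e1, e2, e3, e3, e4, Polynomial.C_sub, Polynomial.C_mul]
  ring

theorem not_X_dvd {K : Type} [Field K] {G : MvPolynomial (Fin 3) K} {d : ℕ}
    (hG : Irreducible G) (hGd : G.IsHomogeneous d) (hd : 2 ≤ d) {l : MvPolynomial (Fin 3) K}
    (hl : l.IsHomogeneous 1) (hl0 : ¬ IsUnit l) : ¬ l ∣ G := by
  rintro ⟨c, hc⟩
  rcases hG.isUnit_or_isUnit hc with h | h
  · exact hl0 h
  · have hl1 : l ≠ 0 := by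
      rintro rfl
      rw [zero_mul] at hc
      exact hG.ne_zero hc
    have hc0 : c ≠ 0 := h.ne_zero
    have h1 := hGd.totalDegree hG.ne_zero
    rw [hc, MvPolynomial.totalDegree_mul_of_isDomain hl1 hc0, hl.totalDegree hl1,
      (MvPolynomial.isUnit_iff_totalDegree_of_isReduced.1 h).2] at h1
    omega

theorem X2_not_unit {K : Type} [Field K] : ¬ IsUnit (X 2 : MvPolynomial (Fin 3) K) := by
  intro h
  have := (MvPolynomial.isUnit_iff_totalDegree_of_isReduced.1 h).2
  rw [totalDegree_X] at this
  exact one_ne_zero this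

/-- The slopes of lines which meet `G` at infinity are finite in number. -/
theorem finite_deg {K : Type} [Field K] {G : MvPolynomial (Fin 3) K} {d : ℕ}
    (hG : Irreducible G) (hGd : G.IsHomogeneous d) (hd : 2 ≤ d) (p : Fin 2 → K) :
    {x : K | ¬ (gam (lt p x) G ≠ 0 ∧ (gam (lt p x) G).natDegree = d)}.Finite := by
  refine (finite_inf hGd (not_X_dvd hG hGd hd (isHomogeneous_X K 2) X2_not_unit)).subset ?_
  intro x hx
  by_contra hne
  apply hx
  have h1 := coeff_gam (lt p x) hGd
  have h2 : (gam (lt p x) G).coeff d ≠ 0 := by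
    rw [h1]
    exact hne
  refine ⟨fun h0 => h2 (by rw [h0, Polynomial.coeff_zero]), ?_⟩
  exact le_antisymm (natDegree_gam _ hGd) (Polynomial.le_natDegree_of_ne_zero h2)

theorem exists_slope {K : Type} [Field K] [Infinite K] {A : Set K} (hA : A.Finite) :
    ∃ x, x ∉ A := by
  by_contra hcon
  push Not at hcon
  exact Set.infinite_univ (hA.subset fun x _ => hcon x)

/-- The multiplicity is less than the degree. -/
theorem ord_lt {K : Type} [Field K] [CharZero K] [IsAlgClosed K] {G : MvPolynomial (Fin 3) K}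
    {d w : ℕ} (hG : Irreducible G) (hGd : G.IsHomogeneous d) (hd : 2 ≤ d) {p : Fin 2 → K}
    (hw : Van (aff p) w G) : w < d := by
  obtain ⟨p', hp'⟩ : ∃ p' : Fin 2 → K, p ≠ p' := ⟨fun a => p a + 1, fun h => by
    have := congrFun h 0
    simp at this⟩
  obtain ⟨x, hx⟩ := exists_slope ((finite_deg hG hGd hd p').union (finite_avoid hp'))
  rw [Set.mem_union, not_or] at hx
  obtain ⟨hx1, h2⟩ := hx
  obtain ⟨h0, h1⟩ : gam (lt p' x) G ≠ 0 ∧ (gam (lt p' x) G).natDegree = d := by
    by_contra h
    exact hx1 h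
  obtain ⟨t, ht⟩ := IsAlgClosed.exists_root (gam (lt p' x) G) (by
    rw [Polynomial.degree_eq_natDegree h0, h1]
    exact_mod_cast (by omega : d ≠ 0))
  rw [Polynomial.IsRoot.def, eval_gam] at ht
  have hne : p ≠ pl (lt p' x) t := by
    intro h
    apply h2
    unfold onl
    rw [h]
    rfl
  have h3 := bez (P := ![p, pl (lt p' x) t]) (fun a b hab => by
      fin_cases a <;> fin_cases b
      · rfl
      · exact absurd hab hne
      · exact absurd hab.symm hne
      · rfl) (ln_irr hne) (ln_hom _ _) (u := ![1, 1]) (fun j => by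
      fin_cases j
      · exact ln_left _ _
      · exact ln_right _ _) hG.ne_zero hGd (w := ![w, 1]) (fun j => by
      fin_cases j
      · exact hw
      · exact van_one'.2 ht) (not_X_dvd hG hGd hd (ln_hom _ _) (ln_irr hne).not_isUnit)
  rw [Fin.sum_univ_two] at h3
  simp at h3
  omega

theorem polar_ne {K : Type} [Field K] [CharZero K] [IsAlgClosed K] {G : MvPolynomial (Fin 3) K}
    {d w : ℕ} (hG : Irreducible G) (hGd : G.IsHomogeneous d) (hd : 2 ≤ d) {p : Fin 2 → K}
    (hw : Ord (aff p) w G) : polar p G ≠ 0 := by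
  intro hH
  have hwd := ord_lt hG hGd hd hw.1
  obtain ⟨x, hx⟩ := exists_slope ((finite_deg hG hGd hd p).union (finite_nt hGd hw))
  rw [Set.mem_union, not_or] at hx
  obtain ⟨hx1, hx2⟩ := hx
  obtain ⟨h0, h1⟩ : gam (lt p x) G ≠ 0 ∧ (gam (lt p x) G).natDegree = d := by
    by_contra h
    exact hx1 h
  obtain ⟨g, hg, hg0⟩ : Nt G w (lt p x) (p 0) := by
    by_contra h
    exact hx2 h
  have h2 := polar_gam p x hGd
  rw [hH, map_zero, sub_zero, hg, Polynomial.derivative_mul,
    Polynomial.derivative_X_sub_C_pow] at h2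
  have h3 : (Polynomial.X - Polynomial.C (p 0)) ^ w *
      ((w : Polynomial K) * g + (Polynomial.X - Polynomial.C (p 0)) * Polynomial.derivative g) =
      (Polynomial.X - Polynomial.C (p 0)) ^ w * ((d : Polynomial K) * g) := by
    rcases Nat.eq_zero_or_pos w with hw0 | hw0
    · subst hw0
      simp only [pow_zero, one_mul, Nat.cast_zero, zero_mul, zero_add] at h2 ⊢
      simpa using h2
    · obtain ⟨v, rfl⟩ : ∃ v, w = v + 1 := ⟨w - 1, by omega⟩
      rw [Nat.add_sub_cancel] at h2
      simp only [map_natCast] at h2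
      rw [pow_succ] at h2 ⊢
      linear_combination h2
  have h4 := mul_left_cancel₀ (pow_ne_zero w (Polynomial.X_sub_C_ne_zero (p 0))) h3
  have h5 := congrArg (Polynomial.eval (p 0)) h4
  simp only [Polynomial.eval_add, Polynomial.eval_mul, Polynomial.eval_natCast,
    Polynomial.eval_sub, Polynomial.eval_X, Polynomial.eval_C, sub_self, zero_mul, add_zero] at h5
  have h6 : (w : K) = d := mul_right_cancel₀ hg0 h5
  have h7 : w = d := by exact_mod_cast h6
  omega

theorem finite_common {K : Type} [Field K] {G H : MvPolynomial (Fin 3) K} {a b : ℕ}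
    (hG : G.IsHomogeneous a) (hH : H.IsHomogeneous b) (hG0 : G ≠ 0) (hH0 : H ≠ 0)
    (hrel : IsRelPrime G H) :
    {q : Fin 2 → K | eval (aff q) G = 0 ∧ eval (aff q) H = 0}.Finite := by
  classical
  have key : ∀ c : Fin 2, ∃ A : Set K, A.Finite ∧ ∀ q : Fin 2 → K, eval (aff q) G = 0 →
      eval (aff q) H = 0 → q c ∈ A := by
    intro c
    obtain ⟨n, r, hr, A, B, hAB⟩ := TT.exists_elim hG hH hG0 hH0 hrel (l := Fin.castSucc c) (by
      intro h2
      have := congrArg Fin.val h2
      simp at this
      omega)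
    let f : Polynomial K := ∑ i : Fin (n + 1), Polynomial.monomial (i : ℕ) (r i)
    have hf : f ≠ 0 := by
      intro h3
      apply hr
      funext i
      have h4 := congrArg (fun q => Polynomial.coeff q (i : ℕ)) h3
      simp only [f, Polynomial.finsetSum_coeff, Polynomial.coeff_monomial,
        Polynomial.coeff_zero] at h4
      rw [Finset.sum_eq_single i] at h4
      · rw [if_pos rfl] at h4
        exact h4
      · intro j _ hj
        rw [if_neg]
        intro h5
        exact hj (Fin.ext h5)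
      · intro h
        exact absurd (Finset.mem_univ _) h
    refine ⟨{x | f.IsRoot x}, Polynomial.finite_setOfPred_isRoot hf, fun q hq1 hq2 => ?_⟩
    show f.eval (q c) = 0
    have h2 := congrArg (eval (aff q)) hAB
    simp only [map_add, map_mul, hq1, hq2, mul_zero, add_zero, map_sum, map_pow, eval_X,
      eval_C] at h2
    have haff : aff q (Fin.castSucc c) = q c := by
      fin_cases c
      · rfl
      · rfl
    have haff2 : aff q 2 = 1 := rfl
    simp only [haff, haff2, one_pow, mul_one] at h2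
    show Polynomial.eval (q c) (∑ i : Fin (n + 1), Polynomial.monomial (i : ℕ) (r i)) = 0
    rw [Polynomial.eval_finsetSum, h2]
    refine Finset.sum_congr rfl fun i _ => ?_
    rw [Polynomial.eval_monomial]
  choose A hA hA2 using key
  refine (Set.Finite.pi' hA).subset ?_
  rintro q ⟨hq1, hq2⟩ c
  exact hA2 c q hq1 hq2

/-- The choice of a line. -/
theorem choose_line {K : Type} [Field K] [CharZero K] [IsAlgClosed K]
    {G : MvPolynomial (Fin 3) K} {d w : ℕ} (hG : Irreducible G) (hGd : G.IsHomogeneous d)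
    (hd : 2 ≤ d) {p : Fin 2 → K} (hw : Ord (aff p) w G) (T : Finset (Fin 2 → K)) (hT : p ∉ T) :
    ∃ (l : K × K) (Q : Finset (Fin 2 → K)), onl l p ∧ (∀ q ∈ T, ¬ onl l q) ∧
      (gam l G ≠ 0 ∧ (gam l G).natDegree = d) ∧ Nt G w l (p 0) ∧ Q.card + w = d ∧
      (∀ q ∈ Q, onl l q ∧ q ≠ p ∧ eval (aff q) G = 0 ∧ Nt G 1 l (q 0)) ∧
      ∀ q, onl l q → eval (aff q) G = 0 → q = p ∨ q ∈ Q := by
  classical
  have hpol := polar_ne hG hGd hd hw
  have hrel : IsRelPrime G (polar p G) := by
    refine (Irreducible.isRelPrime_iff_not_dvd hG).2 ?_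
    rintro ⟨c, hc⟩
    have hc0 : c ≠ 0 := by
      rintro rfl
      rw [mul_zero] at hc
      exact hpol hc
    have h1 := (polar_hom p hGd).totalDegree hpol
    rw [hc, MvPolynomial.totalDegree_mul_of_isDomain hG.ne_zero hc0,
      hGd.totalDegree hG.ne_zero] at h1
    omega
  have hfin := finite_common hGd (polar_hom p hGd) hG.ne_zero hpol hrel
  let Z : Set (Fin 2 → K) := ({q | eval (aff q) G = 0 ∧ eval (aff q) (polar p G) = 0} ∪ ↑T) \ {p}
  have hZ : Z.Finite := (hfin.union T.finite_toSet).sdiff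
  have hav : (⋃ q ∈ Z, {x : K | onl (lt p x) q}).Finite := by
    refine hZ.biUnion fun q hq => finite_avoid ?_
    exact fun h => hq.2 h
  obtain ⟨x, hx⟩ := exists_slope (((finite_deg hG hGd hd p).union (finite_nt hGd hw)).union hav)
  rw [Set.mem_union, Set.mem_union, not_or, not_or] at hx
  obtain ⟨⟨hx1, hx2⟩, hx3⟩ := hx
  obtain ⟨h0, h1⟩ : gam (lt p x) G ≠ 0 ∧ (gam (lt p x) G).natDegree = d := by
    by_contra h
    exact hx1 h
  obtain ⟨g, hg, hg0⟩ : Nt G w (lt p x) (p 0) := by
    by_contra h
    exact hx2 h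
  have h3 : ∀ q ∈ Z, ¬ onl (lt p x) q := fun q hq h => hx3 (Set.mem_biUnion hq h)
  have hdeg : g.natDegree + w = d := by
    have hgne : g ≠ 0 := by
      rintro rfl
      exact hg0 Polynomial.eval_zero
    rw [hg, Polynomial.natDegree_mul (pow_ne_zero _ (Polynomial.X_sub_C_ne_zero _)) hgne,
      Polynomial.natDegree_pow, Polynomial.natDegree_X_sub_C, mul_one] at h1
    omega
  have hgne : g ≠ 0 := by
    rintro rfl
    exact hg0 Polynomial.eval_zero
  -- the other intersection points are simple
  have hsimple : ∀ t, g.IsRoot t → (Polynomial.derivative (gam (lt p x) G)).eval t ≠ 0 := by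
    intro t ht h4
    have h5 := congrArg (Polynomial.eval t) (polar_gam p x hGd)
    rw [Polynomial.eval_mul, h4, mul_zero, Polynomial.eval_sub, Polynomial.eval_mul] at h5
    have h6 : (gam (lt p x) G).eval t = 0 := by
      rw [hg, Polynomial.eval_mul, show g.eval t = 0 from ht, mul_zero]
    rw [h6, mul_zero, zero_sub, eq_comm, neg_eq_zero, eval_gam] at h5
    rw [eval_gam] at h6
    have htp : t ≠ p 0 := by
      rintro rfl
      exact hg0 ht
    refine h3 (pl (lt p x) t) ⟨Or.inl ⟨h6, h5⟩, ?_⟩ rfl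
    intro h7
    exact htp (congrFun h7 0)
  have hnodup : g.roots.Nodup := by
    rw [Multiset.nodup_iff_count_le_one]
    intro t
    rw [Polynomial.count_roots]
    by_contra h4
    push Not at h4
    rw [Polynomial.one_lt_rootMultiplicity_iff_isRoot hgne] at h4
    refine hsimple t h4.1 ?_
    rw [hg, Polynomial.derivative_mul, Polynomial.eval_add, Polynomial.eval_mul,
      Polynomial.eval_mul, show g.eval t = 0 from h4.1, show (Polynomial.derivative g).eval t = 0
        from h4.2]
    ring
  refine ⟨lt p x, g.roots.toFinset.image (pl (lt p x)), lt_onl p x, ?_, ⟨h0, h1⟩, ⟨g, hg, hg0⟩,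
    ?_, ?_, ?_⟩
  · intro q hq
    exact h3 q ⟨Or.inr hq, fun h => hT (by
      have h' : q = p := h
      rwa [← h'])⟩
  · rw [Finset.card_image_of_injective _ (pl_inj _), Multiset.toFinset_card_of_nodup hnodup,
      Polynomial.splits_iff_card_roots.1 (IsAlgClosed.splits g)]
    exact hdeg
  · intro q hq
    rw [Finset.mem_image] at hq
    obtain ⟨t, ht, rfl⟩ := hq
    rw [Multiset.mem_toFinset, Polynomial.mem_roots hgne] at ht
    have h6 : (gam (lt p x) G).eval t = 0 := by
      rw [hg, Polynomial.eval_mul, show g.eval t = 0 from ht, mul_zero]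
    have htp : t ≠ p 0 := by
      rintro rfl
      exact hg0 ht
    refine ⟨rfl, fun h => htp (congrFun h 0), by rw [← eval_gam]; exact h6, ?_⟩
    obtain ⟨k, hk⟩ := Polynomial.dvd_iff_isRoot.2 (show (gam (lt p x) G).IsRoot t from h6)
    refine ⟨k, by rw [pow_one]; exact hk, fun h7 => hsimple t ht ?_⟩
    have h8 : k.eval t = 0 := h7
    rw [hk, Polynomial.derivative_mul, Polynomial.eval_add, Polynomial.eval_mul,
      Polynomial.eval_mul, h8]
    simp
  · intro q hq hq2
    rw [hq, ← eval_gam, hg, Polynomial.eval_mul, mul_eq_zero] at hq2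
    rcases hq2 with h4 | h4
    · left
      have h5 : q 0 = p 0 := by
        rw [Polynomial.eval_pow] at h4
        have h7 := eq_zero_of_pow_eq_zero h4
        simpa [sub_eq_zero] using h7
      rw [hq, h5]
      exact (lt_onl p x).symm
    · right
      rw [Finset.mem_image]
      exact ⟨q 0, by rw [Multiset.mem_toFinset, Polynomial.mem_roots hgne]; exact h4, hq.symm⟩

end Pool.Agent.TH167.DD
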