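import Pool.Agent.TH167.DD.CB

set_option autoImplicit false

/-!
# Duality
-/

namespace Pool.Agent.TH167.DD

open MvPolynomial Pool.Agent.W609.CR Pool.Agent.TH167.SH

/-- The values at the points `Q`. -/
noncomputable def ev {K : Type} [Field K] (Q : Finset (Fin 2 → K)) :
    MvPolynomial (Fin 3) K →ₗ[K] (Q → K) where
  toFun F q := eval (aff q.1) F
  map_add' F F' := by
    funext q
    exact map_add _ _ _
  map_smul' c F := by
    funext q
    simp [smul_eval]

theorem ev_apply {K : Type} [Field K] (Q : Finset (Fin 2 → K)) (F : MvPolynomial (Fin 3) K)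
    (q : Q) : ev Q F q = eval (aff q.1) F := rfl

/-- There is a functional with nonzero coefficients which kills a subspace without coordinate
vectors. -/
theorem exists_func {K : Type} [Field K] [Infinite K] {ι : Type} [Fintype ι] [DecidableEq ι]
    (U : Submodule K (ι → K)) (hU : ∀ i, Pi.single i 1 ∉ U) :
    ∃ c : ι → K, (∀ i, c i ≠ 0) ∧ ∀ u ∈ U, ∑ i, c i * u i = 0 := by
  classical
  let V : Submodule K (ι → K) :=
    { carrier := {c | ∀ u ∈ U, ∑ i, c i * u i = 0}
      add_mem' := by
        intro a b ha hb u hu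
        simp only [Pi.add_apply, add_mul, Finset.sum_add_distrib]
        rw [ha u hu, hb u hu, add_zero]
      zero_mem' := by
        intro u _
        simp
      smul_mem' := by
        intro t a ha u hu
        simp only [Pi.smul_apply, smul_eq_mul, mul_assoc, ← Finset.mul_sum]
        rw [ha u hu, mul_zero] }
  let W : ι → Submodule K ↥V := fun i =>
    { carrier := {c | c.1 i = 0}
      add_mem' := by
        intro a b (ha : a.1 i = 0) (hb : b.1 i = 0)
        show a.1 i + b.1 i = 0
        rw [ha, hb, add_zero]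
      zero_mem' := rfl
      smul_mem' := by
        intro t a (ha : a.1 i = 0)
        show t * a.1 i = 0
        rw [ha, mul_zero] }
  have hW : ∀ i, W i ≠ ⊤ := by
    intro i h
    obtain ⟨f, hf1, hf2⟩ := Submodule.exists_le_ker_of_notMem (hU i)
    have hfs : ∀ u, f u = ∑ j, f (Pi.single j 1) * u j := by
      intro u
      conv_lhs => rw [pi_eq_sum_univ' u]
      rw [map_sum]
      refine Finset.sum_congr rfl fun j _ => ?_
      rw [map_smul, smul_eq_mul, mul_comm]
    have hmem : (fun j => f (Pi.single j 1)) ∈ V := by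
      intro u hu
      rw [← hfs]
      exact hf2 hu
    have h1 : (⟨_, hmem⟩ : ↥V) ∈ W i := by
      rw [h]
      exact Submodule.mem_top
    exact hf1 h1
  have hne : (⋃ p ∈ Finset.univ.image W, ((p : Submodule K ↥V) : Set ↥V)) ≠ Set.univ := by
    intro h
    have h1 := Subspace.top_mem_of_biUnion_eq_univ h
    rw [Finset.mem_image] at h1
    obtain ⟨j, -, hj⟩ := h1
    exact hW j hj
  rw [Set.ne_univ_iff_exists_notMem] at hne
  obtain ⟨⟨c, hc⟩, hc1⟩ := hne
  simp only [Set.mem_iUnion, not_exists] at hc1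
  refine ⟨c, fun i h => hc1 (W i) (Finset.mem_image_of_mem W (Finset.mem_univ i)) ?_, hc⟩
  exact h

/-- Orthogonal subspaces. -/
theorem orth_dim {K : Type} [Field K] {ι : Type} [Fintype ι] (c : ι → K)
    (hc : ∀ i, c i ≠ 0) (A B : Submodule K (ι → K))
    (h : ∀ a ∈ A, ∀ b ∈ B, ∑ i, c i * (a i * b i) = 0) :
    Module.finrank K ↥A + Module.finrank K ↥B ≤ Fintype.card ι := by
  classical
  let ψ : (ι → K) →ₗ[K] Module.Dual K (ι → K) :=
    LinearMap.mk₂ K (fun b a => ∑ i, c i * (a i * b i))
      (by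
        intro a b u
        simp only [Pi.add_apply, mul_add, Finset.sum_add_distrib])
      (by
        intro t a u
        simp only [Pi.smul_apply, smul_eq_mul, Finset.mul_sum]
        exact Finset.sum_congr rfl fun i _ => by ring)
      (by
        intro a u v
        simp only [Pi.add_apply, add_mul, mul_add, Finset.sum_add_distrib])
      (by
        intro t a u
        simp only [Pi.smul_apply, smul_eq_mul, Finset.mul_sum]
        exact Finset.sum_congr rfl fun i _ => by ring)
  have hψ : ∀ b a, ψ b a = ∑ i, c i * (a i * b i) := fun b a => rfl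
  have hinj : Function.Injective ψ := by
    rw [← LinearMap.ker_eq_bot, LinearMap.ker_eq_bot']
    intro b hb
    funext i
    have h1 := LinearMap.congr_fun hb (Pi.single i 1)
    rw [hψ, Finset.sum_eq_single i] at h1
    · rw [Pi.single_eq_same, one_mul, LinearMap.zero_apply] at h1
      exact (mul_eq_zero.1 h1).resolve_left (hc i)
    · intro j _ hj
      rw [Pi.single_eq_of_ne hj, zero_mul, mul_zero]
    · intro h2
      exact absurd (Finset.mem_univ i) h2
  have h1 : B.map ψ ≤ A.dualAnnihilator := by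
    rintro _ ⟨b, hb, rfl⟩
    rw [Submodule.mem_dualAnnihilator]
    intro a ha
    rw [hψ]
    exact h a ha b hb
  have h2 := Submodule.finrank_mono h1
  have h3 := LinearEquiv.finrank_eq (Submodule.equivMapOfInjective ψ hinj B)
  have h4 := Subspace.finrank_add_finrank_dualAnnihilator_eq A
  rw [Module.finrank_fintype_fun_eq_card] at h4
  omega

/-- The dimension of a space of forms and of its space of values. -/
theorem ev_dim {K : Type} [Field K] (Q : Finset (Fin 2 → K))
    (A B : Submodule K (MvPolynomial (Fin 3) K)) [Module.Finite K ↥A] [Module.Finite K ↥B]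
    (h : ∀ f ∈ A, (∀ q ∈ Q, eval (aff q) f = 0) → f ∈ B) :
    Module.finrank K ↥A ≤ Module.finrank K ↥B + Module.finrank K ↥(A.map (ev Q)) := by
  let φ : ↥A →ₗ[K] (Q → K) := (ev Q).comp A.subtype
  have h1 := LinearMap.finrank_range_add_finrank_ker φ
  have h2 : LinearMap.range φ = A.map (ev Q) := by
    ext x
    constructor
    · rintro ⟨a, rfl⟩
      exact ⟨a.1, a.2, rfl⟩
    · rintro ⟨a, ha, rfl⟩
      exact ⟨⟨a, ha⟩, rfl⟩
  have h3 : Module.finrank K ↥(LinearMap.ker φ) ≤ Module.finrank K ↥B := by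
    let ι : ↥(LinearMap.ker φ) →ₗ[K] ↥B :=
      { toFun := fun x => ⟨x.1.1, h x.1.1 x.1.2 fun q hq => congrFun (LinearMap.mem_ker.1 x.2) ⟨q, hq⟩⟩
        map_add' := fun x y => rfl
        map_smul' := fun t x => rfl }
    refine LinearMap.finrank_le_finrank_of_injective (f := ι) ?_
    intro x y hxy
    have : x.1.1 = y.1.1 := congrArg (fun z : ↥B => z.1) hxy
    exact Subtype.ext (Subtype.ext this)
  rw [← h2]
  omega

/-- The duality inequality. -/
theorem Cfg.dual {K : Type} [Field K] [CharZero K] [IsAlgClosed K] {s : ℕ}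
    {G : MvPolynomial (Fin 3) K} {d : ℕ} {P : Fin s → Fin 2 → K} {w r : Fin s → ℕ}
    {Ls : List (K × K)} {Q : Finset (Fin 2 → K)}
    (h : Cfg G d P w r Ls Q) (hG : G.IsHomogeneous d) (hG0 : G ≠ 0)
    (hw : ∀ i, Ord (aff (P i)) (w i) G) {a b : ℕ} (hab : a + b + 3 = d + Ls.length)
    (A B : Submodule K (MvPolynomial (Fin 3) K)) (hA : ∀ f ∈ A, f.IsHomogeneous a)
    (hB : ∀ g ∈ B, g.IsHomogeneous b)
    (hAB : ∀ f ∈ A, ∀ g ∈ B, ∀ i, w i ≠ 0 → Van (aff (P i)) (w i + r i - 1) (f * g)) :
    Module.finrank K ↥(A.map (ev Q)) + Module.finrank K ↥(B.map (ev Q)) ≤ Q.card := by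
  classical
  let W : Submodule K (MvPolynomial (Fin 3) K) :=
    homogeneousSubmodule (Fin 3) K (a + b) ⊓
      ⨅ i : {i : Fin s // w i ≠ 0}, Submodule.restrictScalars K
        ((RingHom.ker (MvPolynomial.eval (aff (P i.1)))) ^ (w i.1 + r i.1 - 1))
  have hW : ∀ f, f ∈ W ↔ f.IsHomogeneous (a + b) ∧
      ∀ i, w i ≠ 0 → Van (aff (P i)) (w i + r i - 1) f := by
    intro f
    rw [Submodule.mem_inf, mem_homogeneousSubmodule, Submodule.mem_iInf]
    constructor
    · rintro ⟨h1, h2⟩
      exact ⟨h1, fun i hi => h2 ⟨i, hi⟩⟩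
    · rintro ⟨h1, h2⟩
      exact ⟨h1, fun i => h2 i.1 i.2⟩
  obtain ⟨c, hc, hcU⟩ := exists_func (W.map (ev Q)) (by
    rintro q0 ⟨F, hF, hFe⟩
    have hF' := (hW F).1 hF
    have h1 := h.cb hG hG0 hw hab hF'.1 hF'.2 q0.2 (fun q hq hne => by
      have h2 := congrFun hFe ⟨q, hq⟩
      rw [ev_apply, Pi.single_eq_of_ne] at h2
      · exact h2
      · intro h3
        exact hne (congrArg Subtype.val h3))
    have h2 := congrFun hFe q0
    rw [ev_apply, Pi.single_eq_same, h1] at h2
    exact zero_ne_one h2)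
  have h1 := orth_dim c hc (A.map (ev Q)) (B.map (ev Q)) (by
    rintro _ ⟨f, hf, rfl⟩ _ ⟨g, hg, rfl⟩
    have h2 : f * g ∈ W := (hW _).2 ⟨(hA f hf).mul (hB g hg), fun i hi => hAB f hf g hg i hi⟩
    have h3 := hcU _ ⟨f * g, h2, rfl⟩
    rw [← h3]
    refine Finset.sum_congr rfl fun q _ => ?_
    rw [ev_apply, ev_apply, ev_apply, map_mul])
  rwa [Fintype.card_coe] at h1

end Pool.Agent.TH167.DD
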