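import Pool.Agent.TH167.DD.Dual
import Pool.Agent.TH167.TT.Tlem

set_option autoImplicit false

/-!
# General lines through a point
-/

namespace Pool.Agent.TH167.DD

open MvPolynomial Pool.Agent.W609 Pool.Agent.W609.CR Pool.Agent.TH167.SH Pool.Agent.H248R5

/-- A nonzero form in two variables has finitely many zeros `(1, λ)`. -/
theorem finite_one {K : Type} [Field K] {h : MvPolynomial (Fin 2) K} {n : ℕ}
    (hh : h.IsHomogeneous n) (h0 : h ≠ 0) : {x : K | eval ![1, x] h = 0}.Finite := by
  have hsw : (rename (Equiv.swap (0 : Fin 2) 1) h).IsHomogeneous n := hh.rename_isHomogeneous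
  have hsw0 : rename (Equiv.swap (0 : Fin 2) 1) h ≠ 0 := by
    intro h1
    exact h0 (rename_injective _ (Equiv.injective _) (h1.trans (map_zero _).symm))
  obtain ⟨p, hpp⟩ : ∃ p : Polynomial K, p =
    (MvPolynomial.aeval ![Polynomial.X, 1]) (rename (Equiv.swap (0 : Fin 2) 1) h) := ⟨_, rfl⟩
  have hp := Polynomial.homogenize_eq_of_isHomogeneous hsw hpp.symm
  have hp0 : p ≠ 0 := by
    rintro rfl
    rw [Polynomial.homogenize_zero] at hp
    exact hsw0 hp.symm
  refine (Polynomial.finite_setOfPred_isRoot hp0).subset ?_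
  intro x hx
  show p.eval x = 0
  rw [hpp]
  have h1 : ∀ g : MvPolynomial (Fin 2) K,
      (MvPolynomial.aeval ![Polynomial.X, 1] (rename (Equiv.swap (0 : Fin 2) 1) g)).eval x =
        eval ![1, x] g := by
    intro g
    induction g using MvPolynomial.induction_on with
    | C c => simp
    | add p q hp hq => rw [map_add, map_add, Polynomial.eval_add, hp, hq, map_add]
    | mul_X p i hp =>
      rw [map_mul, map_mul, Polynomial.eval_mul, hp, map_mul, eval_X]
      congr 1
      fin_cases i <;> simp
  rw [h1]
  exact hx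

/-- The part at infinity. -/
theorem finite_inf {K : Type} [Field K] {G : MvPolynomial (Fin 3) K} {d : ℕ}
    (hG : G.IsHomogeneous d) (hX : ¬ X 2 ∣ G) : {x : K | eval ![1, x, 0] G = 0}.Finite := by
  obtain ⟨g, hg⟩ : ∃ g : MvPolynomial (Fin 2) K, g = MvPolynomial.aeval ![X 0, X 1, 0] G := ⟨_, rfl⟩
  have hgh : g.IsHomogeneous d := by
    rw [hg]
    rw [MvPolynomial.aeval_def, MvPolynomial.eval₂_eq']
    refine IsHomogeneous.sum _ _ _ fun α hα => ?_
    by_cases h2 : α 2 = 0
    · have h1 : α 0 + α 1 = d := by
        have h3 := hG (mem_support_iff.1 hα)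
        rw [Finsupp.weight_apply, Finsupp.sum_fintype _ _ (by simp), Fin.sum_univ_three] at h3
        simp only [Pi.one_apply, smul_eq_mul, mul_one, h2] at h3
        omega
      rw [Fin.prod_univ_three, h2, pow_zero, mul_one]
      simp only [Matrix.cons_val_zero, Matrix.cons_val_one]
      have h4 := (((isHomogeneous_X K (0 : Fin 2)).pow (α 0)).mul
        ((isHomogeneous_X K (1 : Fin 2)).pow (α 1))).C_mul (coeff α G)
      have h5 : 1 * α 0 + 1 * α 1 = d := by omega
      rw [h5] at h4
      exact h4
    · rw [Fin.prod_univ_three]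
      have : (![X 0, X 1, (0 : MvPolynomial (Fin 2) K)] 2) ^ α 2 = 0 := by
        show (0 : MvPolynomial (Fin 2) K) ^ α 2 = 0
        exact zero_pow h2
      rw [this, mul_zero, mul_zero]
      exact isHomogeneous_zero _ _ _
  have hg0 : g ≠ 0 := by
    intro h0
    apply hX
    have h1 : ∀ f : MvPolynomial (Fin 3) K, (X 2 : MvPolynomial (Fin 3) K) ∣
        f - MvPolynomial.aeval ![X 0, X 1, (0 : MvPolynomial (Fin 3) K)] f := by
      intro f
      induction f using MvPolynomial.induction_on with
      | C c => simp
      | add p q hp hq =>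
        rw [map_add, add_sub_add_comm]
        exact dvd_add hp hq
      | mul_X p i hp =>
        rw [map_mul, aeval_X]
        obtain ⟨c, hc⟩ := hp
        fin_cases i
        · refine ⟨c * X 0, ?_⟩
          show p * X 0 - _ * X 0 = _
          linear_combination X 0 * hc
        · refine ⟨c * X 1, ?_⟩
          show p * X 1 - _ * X 1 = _
          linear_combination X 1 * hc
        · refine ⟨p, ?_⟩
          show p * X 2 - _ * 0 = _
          ring
    have h2 : MvPolynomial.aeval ![X 0, X 1, (0 : MvPolynomial (Fin 3) K)] G =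
        rename (Fin.castSucc : Fin 2 → Fin 3) g := by
      rw [hg]
      have h3 : ∀ f : MvPolynomial (Fin 3) K,
          MvPolynomial.aeval ![X 0, X 1, (0 : MvPolynomial (Fin 3) K)] f =
          rename (Fin.castSucc : Fin 2 → Fin 3)
            (MvPolynomial.aeval ![X 0, X 1, (0 : MvPolynomial (Fin 2) K)] f) := by
        intro f
        induction f using MvPolynomial.induction_on with
        | C c => simp
        | add p q hp hq => rw [map_add, map_add, map_add, hp, hq]
        | mul_X p i hp =>
          rw [map_mul, map_mul, map_mul, hp, aeval_X, aeval_X]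
          congr 1
          fin_cases i
          · show X 0 = rename _ (X 0)
            rw [rename_X]
            rfl
          · show X 1 = rename _ (X 1)
            rw [rename_X]
            rfl
          · show 0 = rename _ 0
            rw [map_zero]
      exact h3 G
    have h4 := h1 G
    rw [h2, h0, map_zero, sub_zero] at h4
    exact h4
  refine (finite_one hgh hg0).subset ?_
  intro x hx
  show eval ![1, x] g = 0
  rw [hg]
  have h1 : ∀ f : MvPolynomial (Fin 3) K,
      eval ![1, x] (MvPolynomial.aeval ![X 0, X 1, (0 : MvPolynomial (Fin 2) K)] f) =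
        eval ![1, x, 0] f := by
    intro f
    induction f using MvPolynomial.induction_on with
    | C c => simp
    | add p q hp hq => rw [map_add, map_add, hp, hq, map_add]
    | mul_X p i hp =>
      rw [map_mul, map_mul, hp, map_mul, eval_X]
      congr 1
      fin_cases i <;> simp
  rw [h1]
  exact hx

/-- The leading coefficient of the restriction to a line. -/
theorem coeff_gam {K : Type} [Field K] (l : K × K) {G : MvPolynomial (Fin 3) K} {d : ℕ}
    (hG : G.IsHomogeneous d) : (gam l G).coeff d = eval ![1, l.1, 0] G := by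
  classical
  unfold gam
  rw [MvPolynomial.aeval_def, MvPolynomial.eval₂_eq', Polynomial.finsetSum_coeff,
    MvPolynomial.eval_eq']
  refine Finset.sum_congr rfl fun α hα => ?_
  have h1 : α 0 + α 1 + α 2 = d := by
    have h2 := hG (mem_support_iff.1 hα)
    rw [Finsupp.weight_apply, Finsupp.sum_fintype _ _ (by simp), Fin.sum_univ_three] at h2
    simpa using h2
  rw [Polynomial.algebraMap_eq, Polynomial.coeff_C_mul, Fin.prod_univ_three, Fin.prod_univ_three]
  congr 1
  have h3 : (Polynomial.X ^ (α 0) : Polynomial K).natDegree ≤ α 0 := Polynomial.natDegree_X_pow_le _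
  have h6 : (Polynomial.C l.1 * Polynomial.X + Polynomial.C l.2 : Polynomial K).natDegree ≤ 1 :=
    Polynomial.natDegree_linear_le
  have h4 : ((Polynomial.C l.1 * Polynomial.X + Polynomial.C l.2) ^ (α 1) : Polynomial K).natDegree
      ≤ α 1 * 1 := Polynomial.natDegree_pow_le_of_le _ h6
  have e1 : (![Polynomial.X, Polynomial.C l.1 * Polynomial.X + Polynomial.C l.2,
      (1 : Polynomial K)] 2) = 1 := rfl
  have e2 : (![(1 : K), l.1, 0] 2) = 0 := rfl
  rw [e1, e2, one_pow, mul_one]
  simp only [Matrix.cons_val_zero, Matrix.cons_val_one, one_pow, one_mul]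
  by_cases h2 : α 2 = 0
  · rw [h2, pow_zero, mul_one]
    have h5 : d = α 0 + α 1 * 1 := by omega
    rw [h5, Polynomial.coeff_mul_add_eq_of_natDegree_le h3 h4, Polynomial.coeff_pow_of_natDegree_le h6]
    simp
  · rw [zero_pow h2, mul_zero]
    refine Polynomial.coeff_eq_zero_of_natDegree_lt ?_
    refine lt_of_le_of_lt Polynomial.natDegree_mul_le ?_
    omega


/-- The line of a given slope through a point. -/
def lt {K : Type} [Field K] (p : Fin 2 → K) (x : K) : K × K := (x, p 1 - x * p 0)

theorem lt_onl {K : Type} [Field K] (p : Fin 2 → K) (x : K) : onl (lt p x) p := by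
  unfold onl pl lt
  funext i
  fin_cases i <;> simp

theorem comp_gam {K : Type} [Field K] (p : Fin 2 → K) (x : K) (G : MvPolynomial (Fin 3) K) :
    (gam (lt p x) G).comp (Polynomial.X + Polynomial.C (p 0)) =
      MvPolynomial.aeval ![Polynomial.X, Polynomial.C x * Polynomial.X] (tau p G) := by
  induction G using MvPolynomial.induction_on with
  | C c => simp [gam, tau]
  | add f g hf hg => rw [map_add, Polynomial.add_comp, hf, hg, map_add, map_add]
  | mul_X f i hf =>
    rw [map_mul, Polynomial.mul_comp, hf, map_mul, map_mul]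
    congr 1
    fin_cases i
    · simp [gam, tau]
    · simp [gam, tau, lt]
      ring
    · simp [gam, tau]

theorem coeff_aeval {K : Type} [Field K] (x : K) (w : ℕ) (f : MvPolynomial (Fin 2) K) :
    (MvPolynomial.aeval ![Polynomial.X, Polynomial.C x * Polynomial.X] f).coeff w =
      eval ![1, x] (homogeneousComponent w f) := by
  classical
  rw [homogeneousComponent_apply, map_sum, MvPolynomial.aeval_def, MvPolynomial.eval₂_eq',
    Polynomial.finsetSum_coeff, Finset.sum_filter]
  refine Finset.sum_congr rfl fun α _ => ?_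
  rw [Polynomial.algebraMap_eq, Polynomial.coeff_C_mul, Fin.prod_univ_two, eval_monomial,
    Finsupp.prod_fintype _ _ (by simp), Fin.prod_univ_two]
  simp only [Matrix.cons_val_zero, Matrix.cons_val_one, one_pow, one_mul]
  have h1 : (Polynomial.X ^ α 0 * (Polynomial.C x * Polynomial.X) ^ α 1 : Polynomial K) =
      Polynomial.C (x ^ α 1) * Polynomial.X ^ (α 0 + α 1) := by
    rw [mul_pow, Polynomial.C_pow, pow_add]
    ring
  have h2 : α.degree = α 0 + α 1 := by
    rw [Finsupp.degree_eq_sum, Fin.sum_univ_two]
  rw [h1, Polynomial.coeff_C_mul, Polynomial.coeff_X_pow, h2]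
  by_cases h3 : α 0 + α 1 = w
  · rw [if_pos h3, if_pos h3.symm, mul_one]
  · rw [if_neg h3, if_neg (fun h => h3 h.symm), mul_zero, mul_zero]

/-- Almost all lines through a point are not tangent there. -/
theorem finite_nt {K : Type} [Field K] {G : MvPolynomial (Fin 3) K} {d w : ℕ} {p : Fin 2 → K}
    (hG : G.IsHomogeneous d) (hw : Ord (aff p) w G) :
    {x : K | ¬ Nt G w (lt p x) (p 0)}.Finite := by
  have h1 : tau p G ∈ (idealOfVars (Fin 2) K) ^ w := (TT.van_tau hG).1 hw.1
  have h2 : tau p G ∉ (idealOfVars (Fin 2) K) ^ (w + 1) := fun h => hw.2 ((TT.van_tau hG).2 h)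
  rw [mem_pow_idealOfVars_iff'] at h1 h2
  have h3 : homogeneousComponent w (tau p G) ≠ 0 := by
    intro h0
    apply h2
    intro α hα
    rcases Nat.lt_or_ge α.degree w with h | h
    · exact h1 α h
    · have h4 := congrArg (coeff α) h0
      rw [coeff_homogeneousComponent, if_pos (by omega), coeff_zero] at h4
      exact h4
  refine (finite_one (homogeneousComponent_isHomogeneous w _) h3).subset ?_
  intro x hx
  by_contra hne
  apply hx
  have hon := lt_onl p x
  have hv : Van (aff (pl (lt p x) (p 0))) w G := by
    rw [← hon]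
    exact hw.1
  obtain ⟨g, hg⟩ := van_gam (lt p x) hv
  refine ⟨g, hg, fun h0 => hne ?_⟩
  show eval ![1, x] (homogeneousComponent w (tau p G)) = 0
  rw [← coeff_aeval, ← comp_gam, hg, Polynomial.mul_comp, Polynomial.pow_comp, Polynomial.sub_comp,
    Polynomial.X_comp, Polynomial.C_comp, add_sub_cancel_right, Polynomial.coeff_X_pow_mul',
    if_pos le_rfl, Nat.sub_self, Polynomial.coeff_zero_eq_eval_zero, Polynomial.eval_comp]
  simpa using h0

/-- Almost all lines through a point avoid another point. -/
theorem finite_avoid {K : Type} [Field K] {p q : Fin 2 → K} (hpq : q ≠ p) :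
    {x : K | onl (lt p x) q}.Finite := by
  refine Set.Subsingleton.finite ?_
  intro x hx y hy
  have hx1 : q 1 = x * q 0 + (p 1 - x * p 0) :=
    congrFun (show q = pl (lt p x) (q 0) from hx) 1
  have hy1 : q 1 = y * q 0 + (p 1 - y * p 0) :=
    congrFun (show q = pl (lt p y) (q 0) from hy) 1
  by_contra hne
  have h0 : q 0 = p 0 := by
    have h1 : (x - y) * (q 0 - p 0) = 0 := by linear_combination hy1 - hx1
    rcases mul_eq_zero.1 h1 with h | h
    · exact absurd (sub_eq_zero.1 h) hne
    · exact sub_eq_zero.1 h
  apply hpq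
  funext i
  fin_cases i
  · exact h0
  · show q 1 = p 1
    rw [hx1, h0]
    ring

end Pool.Agent.TH167.DD
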