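import Pool.Agent.TH167.SH.Base

set_option autoImplicit false

/-!
# Restriction to lines

The line `X 1 = λ X 0 + c X 2` is given by the pair `(λ, c)`.
-/

namespace Pool.Agent.TH167.DD

open MvPolynomial Pool.Agent.W609.CR Pool.Agent.TH167.SH

/-- The equation of a line. -/
noncomputable def lin {K : Type} [Field K] (l : K × K) : MvPolynomial (Fin 3) K :=
  X 1 - C l.1 * X 0 - C l.2 * X 2

/-- The restriction to a line, in the affine coordinate. -/
noncomputable def gam {K : Type} [Field K] (l : K × K) :
    MvPolynomial (Fin 3) K →ₐ[K] Polynomial K :=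
  MvPolynomial.aeval ![Polynomial.X, Polynomial.C l.1 * Polynomial.X + Polynomial.C l.2, 1]

/-- The point of a line with a given coordinate. -/
def pl {K : Type} [Field K] (l : K × K) (t : K) : Fin 2 → K := ![t, l.1 * t + l.2]

theorem pl_inj {K : Type} [Field K] (l : K × K) : Function.Injective (pl l) := by
  intro a b h
  exact congrFun h 0

theorem eval_gam {K : Type} [Field K] (l : K × K) (t : K) (F : MvPolynomial (Fin 3) K) :
    (gam l F).eval t = eval (aff (pl l t)) F := by
  induction F using MvPolynomial.induction_on with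
  | C c => simp [gam]
  | add p q hp hq => rw [map_add, Polynomial.eval_add, hp, hq, map_add]
  | mul_X p i hp =>
    rw [map_mul, Polynomial.eval_mul, hp, map_mul, eval_X]
    congr 1
    fin_cases i <;> simp [gam, aff, pl]

theorem gam_lin {K : Type} [Field K] (l : K × K) : gam l (lin l) = 0 := by
  simp [gam, lin]

theorem lin_hom {K : Type} [Field K] (l : K × K) : (lin l).IsHomogeneous 1 := by
  unfold lin
  refine ((isHomogeneous_X K 1).sub ?_).sub ?_
  · exact (isHomogeneous_X K 0).C_mul l.1
  · exact (isHomogeneous_X K 2).C_mul l.2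

theorem lin_coeff {K : Type} [Field K] (l : K × K) :
    coeff (Finsupp.single 1 1) (lin l) = 1 := by
  classical
  have h0 : (Finsupp.single (0 : Fin 3) 1 : Fin 3 →₀ ℕ) ≠ Finsupp.single 1 1 := by
    intro h
    exact absurd (Finsupp.single_left_injective one_ne_zero h) (by decide)
  have h2 : (Finsupp.single (2 : Fin 3) 1 : Fin 3 →₀ ℕ) ≠ Finsupp.single 1 1 := by
    intro h
    exact absurd (Finsupp.single_left_injective one_ne_zero h) (by decide)
  unfold lin
  rw [coeff_sub, coeff_sub, coeff_C_mul, coeff_C_mul, coeff_X, coeff_X, coeff_X, if_pos rfl,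
    if_neg h0, if_neg h2]
  ring

theorem lin_ne {K : Type} [Field K] (l : K × K) : lin l ≠ 0 := by
  intro h
  have h1 := lin_coeff l
  rw [h, coeff_zero] at h1
  exact zero_ne_one h1

theorem lin_irr {K : Type} [Field K] (l : K × K) : Irreducible (lin l) := by
  apply irreducible_of_totalDegree_eq_one
  · exact (lin_hom l).totalDegree (lin_ne l)
  · intro x hx
    have h1 := hx (Finsupp.single 1 1)
    rw [lin_coeff] at h1
    exact isUnit_of_dvd_one h1

theorem eval_lin {K : Type} [Field K] (l : K × K) (p : Fin 2 → K) :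
    eval (aff p) (lin l) = p 1 - l.1 * p 0 - l.2 := by
  simp [lin, aff]

theorem eval_lin_iff {K : Type} [Field K] (l : K × K) (p : Fin 2 → K) :
    eval (aff p) (lin l) = 0 ↔ p = pl l (p 0) := by
  rw [eval_lin]
  constructor
  · intro h
    funext i
    fin_cases i
    · rfl
    · show p 1 = l.1 * p 0 + l.2
      linear_combination h
  · intro h
    have := congrFun h 1
    simp only [pl, Matrix.cons_val_one] at this
    rw [this]
    simp

theorem van_one' {K : Type} [Field K] {v : Fin 3 → K} {G : MvPolynomial (Fin 3) K} :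
    Van v 1 G ↔ eval v G = 0 := by
  unfold Van
  rw [pow_one]
  exact RingHom.mem_ker

/-- A form which vanishes on a line is divisible by its equation. -/
theorem dvd_of_gam {K : Type} [Field K] [CharZero K] (l : K × K) {F : MvPolynomial (Fin 3) K}
    {n : ℕ} (hF : F.IsHomogeneous n) (h : gam l F = 0) : lin l ∣ F := by
  by_cases hF0 : F = 0
  · rw [hF0]
    exact dvd_zero _
  by_contra hnd
  have h1 := bez (P := fun i : Fin (n + 1) => pl l ((i : ℕ) : K))
    (fun a b hab => Fin.ext (by exact_mod_cast pl_inj l hab)) (lin_irr l) (lin_hom l)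
    (u := fun _ => 1) (fun j => by
      rw [van_one', ← eval_gam, gam_lin, Polynomial.eval_zero]) hF0 hF (w := fun _ => 1)
    (fun j => by rw [van_one', ← eval_gam, h, Polynomial.eval_zero]) hnd
  simp at h1

/-- The homogenization of a polynomial in one variable. -/
noncomputable def hm {K : Type} [Field K] (n : ℕ) (q : Polynomial K) : MvPolynomial (Fin 3) K :=
  MvPolynomial.rename ![0, 2] (q.homogenize n)

theorem hm_hom {K : Type} [Field K] (n : ℕ) (q : Polynomial K) : (hm n q).IsHomogeneous n :=
  (Polynomial.isHomogeneous_homogenize q).rename_isHomogeneous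

theorem gam_hm {K : Type} [Field K] (l : K × K) {n : ℕ} {q : Polynomial K}
    (hq : q.natDegree ≤ n) : gam l (hm n q) = q := by
  unfold hm gam
  rw [aeval_rename, Polynomial.aeval_homogenize_of_eq_one hq _ (by simp)]
  simp

theorem eval_hm {K : Type} [Field K] {n : ℕ} {q : Polynomial K}
    (hq : q.natDegree ≤ n) (p : Fin 2 → K) : eval (aff p) (hm n q) = q.eval (p 0) := by
  have h1 := eval_gam ((0 : K), p 1) (p 0) (hm n q)
  rw [gam_hm _ hq] at h1
  have h2 : pl ((0 : K), p 1) (p 0) = p := by
    funext i
    fin_cases i <;> simp [pl]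
  rw [h1, h2]

theorem hm_mul {K : Type} [Field K] {m n : ℕ} {q r : Polynomial K}
    (hq : q.natDegree ≤ m) (hr : r.natDegree ≤ n) : hm (m + n) (q * r) = hm m q * hm n r := by
  unfold hm
  rw [Polynomial.homogenize_mul _ _ hq hr, map_mul]

theorem natDegree_gam {K : Type} [Field K] (l : K × K) {F : MvPolynomial (Fin 3) K} {n : ℕ}
    (hF : F.IsHomogeneous n) : (gam l F).natDegree ≤ n := by
  classical
  unfold gam
  rw [MvPolynomial.aeval_def, MvPolynomial.eval₂_eq']
  refine Polynomial.natDegree_sum_le_of_forall_le _ _ fun α hα => ?_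
  rw [Polynomial.algebraMap_eq]
  refine (Polynomial.natDegree_C_mul_le _ _).trans ?_
  rw [Fin.prod_univ_three]
  simp only [Matrix.cons_val_zero, Matrix.cons_val_one, Matrix.cons_val_two, one_pow, mul_one]
  have h1 : α 0 + α 1 + α 2 = n := by
    have h2 := hF (mem_support_iff.1 hα)
    rw [Finsupp.weight_apply, Finsupp.sum_fintype _ _ (by simp), Fin.sum_univ_three] at h2
    simpa using h2
  refine (Polynomial.natDegree_mul_le).trans ?_
  have h3 : (Polynomial.X ^ (α 0) : Polynomial K).natDegree ≤ α 0 := Polynomial.natDegree_X_pow_le _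
  have h4 : ((Polynomial.C l.1 * Polynomial.X + Polynomial.C l.2) ^ (α 1) : Polynomial K).natDegree
      ≤ α 1 := by
    refine (Polynomial.natDegree_pow_le).trans ?_
    have : (Polynomial.C l.1 * Polynomial.X + Polynomial.C l.2 : Polynomial K).natDegree ≤ 1 :=
      Polynomial.natDegree_linear_le
    nlinarith
  have h5 : ((Polynomial.X ^ (α 0) * (Polynomial.C l.1 * Polynomial.X + Polynomial.C l.2) ^ (α 1)) :
      Polynomial K).natDegree ≤ n := by
    refine (Polynomial.natDegree_mul_le).trans ?_
    omega
  simp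
  omega

theorem van_gam {K : Type} [Field K] (l : K × K) {F : MvPolynomial (Fin 3) K} {m : ℕ} {t : K}
    (h : Van (aff (pl l t)) m F) : (Polynomial.X - Polynomial.C t) ^ m ∣ gam l F := by
  rw [← Ideal.mem_span_singleton, ← Ideal.span_singleton_pow]
  have h1 : (RingHom.ker (eval (aff (pl l t)))).map (gam l).toRingHom ≤
      Ideal.span {Polynomial.X - Polynomial.C t} := by
    rw [Ideal.map_le_iff_le_comap]
    intro f hf
    rw [Ideal.mem_comap, Ideal.mem_span_singleton, Polynomial.dvd_iff_isRoot,
      Polynomial.IsRoot.def]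
    show (gam l f).eval t = 0
    rw [eval_gam]
    exact RingHom.mem_ker.1 hf
  have h2 : gam l F ∈ ((RingHom.ker (eval (aff (pl l t)))) ^ m).map (gam l).toRingHom :=
    Ideal.mem_map_of_mem (gam l).toRingHom h
  rw [Ideal.map_pow] at h2
  exact Ideal.pow_right_mono h1 m h2

theorem van_hm {K : Type} [Field K] {n : ℕ} {q : Polynomial K} (hq : q.natDegree ≤ n)
    {m : ℕ} {p : Fin 2 → K} (h : (Polynomial.X - Polynomial.C (p 0)) ^ m ∣ q) :
    Van (aff p) m (hm n q) := by
  by_cases hq0 : q = 0
  · rw [hq0]
    unfold hm Van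
    simp
  obtain ⟨r, hr⟩ := h
  have hr0 : r ≠ 0 := fun h0 => hq0 (by rw [hr, h0, mul_zero])
  have hdeg : q.natDegree = m + r.natDegree := by
    rw [hr, Polynomial.natDegree_mul (pow_ne_zero _ (Polynomial.X_sub_C_ne_zero _)) hr0,
      Polynomial.natDegree_pow, Polynomial.natDegree_X_sub_C, mul_one]
  have h1 : Van (aff p) 1 (hm 1 (Polynomial.X - Polynomial.C (p 0))) := by
    rw [van_one', eval_hm (by rw [Polynomial.natDegree_X_sub_C])]
    simp
  have key : ∀ m : ℕ, hm m ((Polynomial.X - Polynomial.C (p 0)) ^ m) =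
      hm 1 (Polynomial.X - Polynomial.C (p 0)) ^ m := by
    intro m
    induction m with
    | zero =>
      rw [pow_zero, pow_zero]
      unfold hm
      simp
    | succ m ih =>
      rw [pow_succ, pow_succ, ← ih, ← hm_mul]
      · rw [Polynomial.natDegree_pow, Polynomial.natDegree_X_sub_C, mul_one]
      · rw [Polynomial.natDegree_X_sub_C]
  obtain ⟨k, hk⟩ : ∃ k, n = m + k := ⟨n - m, by omega⟩
  rw [hk, hr, hm_mul (by rw [Polynomial.natDegree_pow, Polynomial.natDegree_X_sub_C, mul_one])
    (by omega), key]
  have h2 : Van (aff p) m (hm 1 (Polynomial.X - Polynomial.C (p 0)) ^ m) := by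
    unfold Van at h1 ⊢
    rw [pow_one] at h1
    exact Ideal.pow_mem_pow h1 m
  exact van_mul h2 (van_zero (aff p) (hm k r))

end Pool.Agent.TH167.DD
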