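import Pool.Agent.TH167.DD.Lin

set_option autoImplicit false

/-!
# The theorem of Max Noether for products of lines
-/

namespace Pool.Agent.TH167.DD

open MvPolynomial Pool.Agent.W609.CR Pool.Agent.TH167.SH

/-- Membership in the ideal `(G, L)` locally at an affine point. -/
def Mem {K : Type} [Field K] (G L : MvPolynomial (Fin 3) K) (p : Fin 2 → K)
    (F : MvPolynomial (Fin 3) K) : Prop :=
  ∃ u, eval (aff p) u ≠ 0 ∧ ∃ a b, u * F = a * G + b * L

/-- The product of lines. -/
noncomputable def lp {K : Type} [Field K] (Ls : List (K × K)) : MvPolynomial (Fin 3) K :=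
  (Ls.map lin).prod

theorem lp_cons {K : Type} [Field K] (l : K × K) (Ls : List (K × K)) :
    lp (l :: Ls) = lin l * lp Ls := by
  unfold lp
  rw [List.map_cons, List.prod_cons]

theorem lp_ne {K : Type} [Field K] (Ls : List (K × K)) : lp Ls ≠ 0 := by
  induction Ls with
  | nil => simp [lp]
  | cons l Ls ih =>
    rw [lp_cons]
    exact mul_ne_zero (lin_ne l) ih

theorem lp_hom {K : Type} [Field K] (Ls : List (K × K)) : (lp Ls).IsHomogeneous Ls.length := by
  induction Ls with
  | nil =>
    simp only [lp, List.map_nil, List.prod_nil, List.length_nil]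
    exact isHomogeneous_one _ _
  | cons l Ls ih =>
    rw [lp_cons, List.length_cons, add_comm]
    exact (lin_hom l).mul ih

/-- The point lies on the line. -/
def onl {K : Type} [Field K] (l : K × K) (p : Fin 2 → K) : Prop := p = pl l (p 0)

open Classical in
/-- The number of lines through a point. -/
noncomputable def cnt {K : Type} [Field K] (Ls : List (K × K)) (p : Fin 2 → K) : ℕ :=
  Ls.countP (fun l => decide (onl l p))

theorem cnt_cons_pos {K : Type} [Field K] {l : K × K} {Ls : List (K × K)} {p : Fin 2 → K}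
    (h : onl l p) : cnt (l :: Ls) p = cnt Ls p + 1 := by
  unfold cnt
  exact List.countP_cons_of_pos (by simpa using h)

theorem cnt_cons_neg {K : Type} [Field K] {l : K × K} {Ls : List (K × K)} {p : Fin 2 → K}
    (h : ¬ onl l p) : cnt (l :: Ls) p = cnt Ls p := by
  unfold cnt
  exact List.countP_cons_of_neg (by simpa using h)

/-- The restriction of `G` to the line vanishes to order exactly `w` at the point. -/
def Nt {K : Type} [Field K] (G : MvPolynomial (Fin 3) K) (w : ℕ) (l : K × K) (t : K) : Prop :=
  ∃ g : Polynomial K, gam l G = (Polynomial.X - Polynomial.C t) ^ w * g ∧ g.eval t ≠ 0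

theorem van_sub {K : Type} [Field K] {v : Fin 3 → K} {m : ℕ} {f g : MvPolynomial (Fin 3) K}
    (hf : Van v m f) (hg : Van v m g) : Van v m (f - g) := by
  unfold Van at *
  exact Ideal.sub_mem _ hf hg

/-- The local condition. -/
theorem mem_of_van {K : Type} [Field K] [CharZero K] {G : MvPolynomial (Fin 3) K} {d w : ℕ}
    {p : Fin 2 → K} (hG : G.IsHomogeneous d) (hG0 : G ≠ 0) (hw : Van (aff p) w G) :
    ∀ (Ls : List (K × K)) (_ : ∀ l ∈ Ls, onl l p → Nt G w l (p 0)) (e : ℕ)
      (F : MvPolynomial (Fin 3) K) (_ : F.IsHomogeneous e)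
      (_ : cnt Ls p = 0 ∨ Van (aff p) (w + cnt Ls p - 1) F), Mem G (lp Ls) p F := by
  intro Ls
  induction Ls with
  | nil =>
    intro _ e F _ _
    refine ⟨1, by rw [map_one]; exact one_ne_zero, 0, F, ?_⟩
    simp [lp]
  | cons l Ls ih =>
    intro hLs e F hF hV
    have hLs' : ∀ l ∈ Ls, onl l p → Nt G w l (p 0) := fun l' hl' => hLs l' (List.mem_cons_of_mem _ hl')
    by_cases hl : onl l p
    · rw [cnt_cons_pos hl] at hV
      have hV' : Van (aff p) (w + cnt Ls p) F := by
        rcases hV with h | h
        · omega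
        · exact h
      by_cases hF0 : F = 0
      · refine ⟨1, by rw [map_one]; exact one_ne_zero, 0, 0, ?_⟩
        rw [hF0]
        ring
      obtain ⟨g, hg, hgt⟩ := hLs l (List.mem_cons_self) hl
      have hg0 : g ≠ 0 := by
        rintro rfl
        exact hgt Polynomial.eval_zero
      have hl' : pl l (p 0) = p := hl.symm
      have hV2 : Van (aff (pl l (p 0))) (w + cnt Ls p) F := by
        rw [hl']
        exact hV'
      obtain ⟨h, hh⟩ := van_gam l hV2
      have hwe := van_le hF0 hF hV'
      have hwd := van_le hG0 hG hw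
      have hdg : g.natDegree ≤ d - w := by
        have h1 := natDegree_gam l hG
        rw [hg, Polynomial.natDegree_mul (pow_ne_zero _ (Polynomial.X_sub_C_ne_zero _)) hg0,
          Polynomial.natDegree_pow, Polynomial.natDegree_X_sub_C, mul_one] at h1
        omega
      obtain ⟨c1, hc1⟩ : ∃ c1, c1 = (Polynomial.X - Polynomial.C (p 0)) ^ cnt Ls p * h := ⟨_, rfl⟩
      have hdc : c1.natDegree ≤ e - w := by
        by_cases h0 : h = 0
        · rw [hc1, h0, mul_zero, Polynomial.natDegree_zero]
          exact Nat.zero_le _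
        · have h1 := natDegree_gam l hF
          rw [hh, Polynomial.natDegree_mul (pow_ne_zero _ (Polynomial.X_sub_C_ne_zero _)) h0,
            Polynomial.natDegree_pow, Polynomial.natDegree_X_sub_C, mul_one] at h1
          rw [hc1, Polynomial.natDegree_mul (pow_ne_zero _ (Polynomial.X_sub_C_ne_zero _)) h0,
            Polynomial.natDegree_pow, Polynomial.natDegree_X_sub_C, mul_one]
          omega
      have hu : eval (aff p) (hm (d - w) g) ≠ 0 := by
        rw [eval_hm hdg]
        exact hgt
      have hhom : (hm (d - w) g * F - hm (e - w) c1 * G).IsHomogeneous (d - w + e) := by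
        refine ((hm_hom _ _).mul hF).sub ?_
        have h1 := (hm_hom (e - w) c1).mul hG
        have h2 : e - w + d = d - w + e := by omega
        rw [h2] at h1
        exact h1
      have hgam : gam l (hm (d - w) g * F - hm (e - w) c1 * G) = 0 := by
        rw [map_sub, map_mul, map_mul, gam_hm l hdg, gam_hm l hdc, hh, hg, hc1]
        ring
      obtain ⟨F', hF'⟩ := dvd_of_gam l hhom hgam
      have hord : Ord (aff p) 1 (lin l) := by
        refine ⟨?_, fun h2 => ?_⟩
        · rw [van_one', eval_lin_iff]
          exact hl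
        · have := van_le (lin_ne l) (lin_hom l) h2
          omega
      have hF'v : cnt Ls p = 0 ∨ Van (aff p) (w + cnt Ls p - 1) F' := by
        rcases Nat.eq_zero_or_pos (cnt Ls p) with h0 | h0
        · exact Or.inl h0
        · right
          refine van_of_mul hord ?_
          rw [← hF']
          have h1 : 1 + (w + cnt Ls p - 1) = w + cnt Ls p := by omega
          rw [h1]
          refine van_sub ?_ ?_
          · have := van_mul (van_zero (aff p) (hm (d - w) g)) hV'
            rwa [zero_add] at this
          · have h2 : Van (aff p) (cnt Ls p) (hm (e - w) c1) :=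
              van_hm hdc (by rw [hc1]; exact Dvd.intro _ rfl)
            have := van_mul h2 hw
            rwa [add_comm] at this
      by_cases hF'0 : F' = 0
      · refine ⟨hm (d - w) g, hu, hm (e - w) c1, 0, ?_⟩
        rw [hF'0, mul_zero, sub_eq_zero] at hF'
        rw [hF']
        ring
      have hne : hm (d - w) g * F - hm (e - w) c1 * G ≠ 0 := by
        rw [hF']
        exact mul_ne_zero (lin_ne l) hF'0
      have hF'h := Pool.Agent.Chud.homog_of_dvd hhom hne (Dvd.intro_left _ hF'.symm)
      obtain ⟨v, hv, a, b, hab⟩ := ih hLs' _ F' hF'h hF'v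
      refine ⟨v * hm (d - w) g, by rw [map_mul]; exact mul_ne_zero hv hu,
        v * hm (e - w) c1 + lin l * a, b, ?_⟩
      rw [lp_cons]
      linear_combination v * hF' + lin l * hab
    · rw [cnt_cons_neg hl] at hV
      obtain ⟨u, hu, a, b, hab⟩ := ih hLs' e F hF hV
      refine ⟨lin l * u, ?_, lin l * a, b, ?_⟩
      · rw [map_mul]
        refine mul_ne_zero ?_ hu
        rw [ne_eq, eval_lin_iff]
        exact hl
      · rw [lp_cons]
        linear_combination lin l * hab

/-- `a` is homogeneous of degree `n - m`, zero if this is negative. -/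
def Hd {K : Type} [Field K] (a : MvPolynomial (Fin 3) K) (m n : ℕ) : Prop :=
  a = 0 ∨ ∃ k, k + m = n ∧ a.IsHomogeneous k

theorem Hd.hom {K : Type} [Field K] {a : MvPolynomial (Fin 3) K} {m n k : ℕ} (h : Hd a m n)
    (hk : k + m = n) : a.IsHomogeneous k := by
  rcases h with h | ⟨k', hk', h⟩
  · rw [h]
    exact isHomogeneous_zero _ _ _
  · have : k' = k := by omega
    rwa [this] at h

theorem Hd.add {K : Type} [Field K] {a b : MvPolynomial (Fin 3) K} {m n : ℕ} (ha : Hd a m n)
    (hb : Hd b m n) : Hd (a + b) m n := by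
  rcases ha with ha | ⟨k, hk, ha⟩
  · rw [ha, zero_add]
    exact hb
  · exact Or.inr ⟨k, hk, ha.add (hb.hom hk)⟩

theorem Hd.lin_mul {K : Type} [Field K] (l : K × K) {a : MvPolynomial (Fin 3) K} {m n : ℕ}
    (ha : Hd a m n) : Hd (lin l * a) m (n + 1) := by
  rcases ha with ha | ⟨k, hk, ha⟩
  · left
    rw [ha, mul_zero]
  · exact Or.inr ⟨1 + k, by omega, (lin_hom l).mul ha⟩

theorem Hd.mul_hom {K : Type} [Field K] {a G : MvPolynomial (Fin 3) K} {m n : ℕ}
    (ha : Hd a m n) (hG : G.IsHomogeneous m) : (a * G).IsHomogeneous n := by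
  rcases ha with ha | ⟨k, hk, ha⟩
  · rw [ha, zero_mul]
    exact isHomogeneous_zero _ _ _
  · rw [← hk]
    exact ha.mul hG

/-- The theorem of Max Noether. -/
theorem noether {K : Type} [Field K] [CharZero K] [IsAlgClosed K] {G : MvPolynomial (Fin 3) K}
    {d : ℕ} (hG : G.IsHomogeneous d) :
    ∀ (Ls : List (K × K)) (_ : ∀ l ∈ Ls, gam l G ≠ 0 ∧ (gam l G).natDegree = d) (e : ℕ)
      (F : MvPolynomial (Fin 3) K) (_ : F.IsHomogeneous e) (_ : ∀ p, Mem G (lp Ls) p F),
      ∃ a b, F = a * G + b * lp Ls ∧ Hd a d e ∧ Hd b Ls.length e := by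
  classical
  intro Ls
  induction Ls with
  | nil =>
    intro _ e F hF _
    refine ⟨0, F, by simp [lp], Or.inl rfl, Or.inr ⟨e, by simp, hF⟩⟩
  | cons l Ls ih =>
    intro hLs e F hF hM
    obtain ⟨hg0, hgd⟩ := hLs l List.mem_cons_self
    -- divisibility on the line
    have hdvd : gam l G ∣ gam l F := by
      obtain ⟨g, h, f', hcop, hh, hf⟩ : ∃ g h f' : Polynomial K, IsCoprime h f' ∧
          gam l G = g * h ∧ gam l F = g * f' := by
        obtain ⟨h, hh⟩ := EuclideanDomain.gcd_dvd_left (gam l G) (gam l F)
        obtain ⟨f', hf⟩ := EuclideanDomain.gcd_dvd_right (gam l G) (gam l F)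
        have hgne : EuclideanDomain.gcd (gam l G) (gam l F) ≠ 0 := by
          intro h0
          rw [h0, zero_mul] at hh
          exact hg0 hh
        refine ⟨_, h, f', ?_, hh, hf⟩
        have h1 := EuclideanDomain.gcd_eq_gcd_ab (gam l G) (gam l F)
        refine ⟨EuclideanDomain.gcdA (gam l G) (gam l F),
          EuclideanDomain.gcdB (gam l G) (gam l F), ?_⟩
        apply mul_left_cancel₀ hgne
        generalize hgg : EuclideanDomain.gcd (gam l G) (gam l F) = gg at *
        generalize EuclideanDomain.gcdA (gam l G) (gam l F) = A at *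
        generalize EuclideanDomain.gcdB (gam l G) (gam l F) = B at *
        linear_combination (-1 : Polynomial K) * h1 - A * hh - B * hf
      have hgne : g ≠ 0 := by
        rintro rfl
        rw [zero_mul] at hh
        exact hg0 hh
      by_cases hu : IsUnit h
      · obtain ⟨h', hh'⟩ := hu.exists_right_inv
        refine ⟨h' * f', ?_⟩
        rw [hf, hh]
        linear_combination (-g * f') * hh'
      · exfalso
        have hh0 : h ≠ 0 := by
          rintro rfl
          rw [mul_zero] at hh
          exact hg0 hh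
        obtain ⟨t, ht⟩ := IsAlgClosed.exists_root h (fun h0 => hu (Polynomial.isUnit_iff_degree_eq_zero.2 h0))
        obtain ⟨u, hu', a, b, hab⟩ := hM (pl l t)
        have h1 := congrArg (gam l) hab
        rw [lp_cons, map_mul, map_add, map_mul, map_mul, map_mul, gam_lin, zero_mul, mul_zero,
          add_zero, hf, hh] at h1
        have h2 : gam l u * f' = gam l a * h := by
          apply mul_left_cancel₀ hgne
          linear_combination h1
        have h3 : h ∣ gam l u := hcop.dvd_of_dvd_mul_right (Dvd.intro_left _ h2.symm)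
        apply hu'
        rw [← eval_gam]
        exact Polynomial.eval_eq_zero_of_dvd_of_eval_eq_zero h3 ht
    obtain ⟨c1, hc1⟩ := hdvd
    obtain ⟨c, hc, hcg⟩ : ∃ c : MvPolynomial (Fin 3) K, Hd c d e ∧ gam l c = c1 := by
      by_cases h0 : c1 = 0
      · exact ⟨0, Or.inl rfl, by rw [h0, map_zero]⟩
      · have h1 := natDegree_gam l hF
        rw [hc1, Polynomial.natDegree_mul hg0 h0, hgd] at h1
        exact ⟨hm (e - d) c1, Or.inr ⟨e - d, by omega, hm_hom _ _⟩, gam_hm l (by omega)⟩
    have hhom : (F - c * G).IsHomogeneous e := hF.sub (hc.mul_hom hG)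
    have hgam : gam l (F - c * G) = 0 := by
      rw [map_sub, map_mul, hcg, hc1]
      ring
    obtain ⟨F', hF'⟩ := dvd_of_gam l hhom hgam
    by_cases hF'0 : F' = 0
    · rw [hF'0, mul_zero, sub_eq_zero] at hF'
      refine ⟨c, 0, by rw [hF']; ring, hc, Or.inl rfl⟩
    have hne : F - c * G ≠ 0 := by
      rw [hF']
      exact mul_ne_zero (lin_ne l) hF'0
    have hF'h := Pool.Agent.Chud.homog_of_dvd hhom hne (Dvd.intro_left _ hF'.symm)
    obtain ⟨n, hn⟩ : ∃ n, n = F'.totalDegree := ⟨_, rfl⟩
    rw [← hn] at hF'h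
    have hne2 : n + 1 = e := by
      have h1 := (lin_hom l).mul hF'h
      rw [← hF'] at h1
      have := h1.inj_right hhom hne
      omega
    have hndvd : ¬ lin l ∣ G := by
      rintro ⟨x, hx⟩
      apply hg0
      rw [hx, map_mul, gam_lin, zero_mul]
    have hM' : ∀ p, Mem G (lp Ls) p F' := by
      intro p
      obtain ⟨u, hu, a, b, hab⟩ := hM p
      rw [lp_cons] at hab
      have h1 : lin l * (u * F' - b * lp Ls) = (a - u * c) * G := by
        linear_combination hab - u * hF'
      have h2 : lin l ∣ (a - u * c) * G := Dvd.intro _ h1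
      rcases (lin_irr l).prime.dvd_or_dvd h2 with h3 | h3
      · obtain ⟨a', ha'⟩ := h3
        refine ⟨u, hu, a', b, ?_⟩
        have h4 : u * F' - b * lp Ls = a' * G := by
          apply mul_left_cancel₀ (lin_ne l)
          rw [h1, ha']
          ring
        linear_combination h4
      · exact absurd h3 hndvd
    obtain ⟨a', b', hab, ha', hb'⟩ := ih (fun l' hl' => hLs l' (List.mem_cons_of_mem _ hl')) n F'
      hF'h hM'
    refine ⟨c + lin l * a', b', ?_, hc.add (by rw [← hne2]; exact ha'.lin_mul l), ?_⟩
    · rw [lp_cons]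
      linear_combination hF' + lin l * hab
    · rcases hb' with hb' | ⟨k, hk, hb'⟩
      · exact Or.inl hb'
      · exact Or.inr ⟨k, by rw [List.length_cons]; omega, hb'⟩

end Pool.Agent.TH167.DD
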