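import Pool.Agent.TH167.DD.Adj2
import Pool.Agent.TH167.TT.NonSp

set_option autoImplicit false

/-!
# Prime divisors whose multiplicities larger than two are small in sum
-/

namespace Pool.Agent.TH167.DD

open MvPolynomial Pool.Agent.W609 Pool.Agent.W609.CR Pool.Agent.TH167.SH Pool.Agent.TH167.TT

/-- If the generator of a rigid system at special points is squarefree, then so is the generator
at generic points. -/
theorem sq_of_special {K K0 : Type} [Field K] [CharZero K] [Field K0] [CharZero K0] {s : ℕ}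
    {P0 : Fin s → Fin 2 → K0}
    (hP0 : AlgebraicIndependent ℚ (fun ij : Fin s × Fin 2 => P0 ij.1 ij.2))
    {P : Fin s → Fin 2 → K} {w : Fin s → ℕ} {d : ℕ}
    (h1 : Module.finrank K ↥(VS (fun j => aff (P j)) w d) = 1)
    {G : MvPolynomial (Fin 3) K} (hG : G ∈ VS (fun j => aff (P j)) w d) (hG0 : G ≠ 0)
    (hsq : Squarefree G) {f : MvPolynomial (Fin 3) K0} (hf : f ∈ VS (fun j => aff (P0 j)) w d)
    (hf0 : f ≠ 0) : Squarefree f := by
  classical
  by_contra hns
  unfold Squarefree at hns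
  push Not at hns
  obtain ⟨x, hx1, hx2⟩ := hns
  have hx0 : x ≠ 0 := fun h => hf0 (by rw [h, zero_mul, zero_dvd_iff] at hx1; exact hx1)
  obtain ⟨h, hh⟩ := hx1
  have hfm := (mem_VS _ _ _ _).1 hf
  have hxe := Pool.Agent.Chud.homog_of_dvd hfm.1 hf0 (⟨x * h, by rw [hh]; ring⟩ : x ∣ f)
  have hh0 : h ≠ 0 := fun h0 => hf0 (by rw [hh, h0, mul_zero])
  have hhe := Pool.Agent.Chud.homog_of_dvd hfm.1 hf0 (⟨x * x, by rw [hh]; ring⟩ : h ∣ f)
  obtain ⟨a, ha⟩ : ∃ a, a = x.totalDegree := ⟨_, rfl⟩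
  obtain ⟨b, hb⟩ : ∃ b, b = h.totalDegree := ⟨_, rfl⟩
  rw [← ha] at hxe
  rw [← hb] at hhe
  have ha0 : a ≠ 0 := by
    intro h0
    apply hx2
    rw [MvPolynomial.isUnit_iff_totalDegree_of_isReduced]
    rw [h0] at ha
    refine ⟨?_, ha.symm⟩
    rw [isUnit_iff_ne_zero]
    intro h3
    have h2 := MvPolynomial.totalDegree_eq_zero_iff_eq_C.1 ha.symm
    rw [h2, h3, C_0] at hx0
    exact hx0 rfl
  choose u hu using fun j => exists_ord (p := P0 j) hx0 hxe
  choose v hv using fun j => exists_ord (p := P0 j) hh0 hhe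
  have hdeg : a + a + b = d := by
    have h2 := (hxe.mul hxe).mul hhe
    rw [← hh] at h2
    exact h2.inj_right hfm.1 hf0
  have hle : ∀ j, w j ≤ u j + u j + v j := by
    intro j
    have h2 := ord_mul (ord_mul (hu j) (hu j)) (hv j)
    rw [← hh] at h2
    by_contra hcon
    push Not at hcon
    exact h2.2 (van_mono (by omega) (hfm.2 j))
  have hxm : x ∈ VS (fun j => aff (P0 j)) u a := (mem_VS _ _ _ _).2 ⟨hxe, fun j => (hu j).1⟩
  have hhm : h ∈ VS (fun j => aff (P0 j)) v b := (mem_VS _ _ _ _).2 ⟨hhe, fun j => (hv j).1⟩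
  obtain ⟨y, hy, hy0⟩ := exists_mem (lt_of_lt_of_le (pos_of_mem hxm hx0) (semi hP0 P u a))
  obtain ⟨z, hz, hz0⟩ := exists_mem (lt_of_lt_of_le (pos_of_mem hhm hh0) (semi hP0 P v b))
  have hyz : y * y * z ∈ VS (fun j => aff (P j)) w d := by
    rw [mem_VS] at hy hz ⊢
    refine ⟨?_, fun j => ?_⟩
    · rw [← hdeg]
      exact (hy.1.mul hy.1).mul hz.1
    · exact van_mono (hle j) (van_mul (van_mul (hy.2 j) (hy.2 j)) (hz.2 j))
  have hyz0 : y * y * z ≠ 0 := mul_ne_zero (mul_ne_zero hy0 hy0) hz0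
  -- the space is one-dimensional
  obtain ⟨c, hc⟩ : ∃ c : K, c • (⟨G, hG⟩ : ↥(VS (fun j => aff (P j)) w d)) = ⟨_, hyz⟩ := by
    have h3 := (finrank_eq_one_iff_of_nonzero' (⟨G, hG⟩ : ↥(VS (fun j => aff (P j)) w d))
      (fun h => hG0 (congrArg Subtype.val h))).1 h1
    exact h3 _
  have hc' : c • G = y * y * z := congrArg Subtype.val hc
  have hc0 : c ≠ 0 := by
    rintro rfl
    rw [zero_smul] at hc'
    exact hyz0 hc'.symm
  have hyu : IsUnit y := by
    refine hsq y ⟨C c⁻¹ * z, ?_⟩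
    have : G = C c⁻¹ * (c • G) := by
      rw [smul_eq_C_mul, ← mul_assoc, ← C_mul, inv_mul_cancel₀ hc0, C_1, one_mul]
    rw [this, hc']
    ring
  have h4 := ((mem_VS _ _ _ _).1 hy).1.totalDegree hy0
  rw [(MvPolynomial.isUnit_iff_totalDegree_of_isReduced.1 hyu).2] at h4
  omega

/-- A point of an irreducible curve outside of another curve. -/
theorem exists_point_on {K : Type} [Field K] [CharZero K] [IsAlgClosed K]
    {G : MvPolynomial (Fin 3) K} {d : ℕ} (hG : Irreducible G) (hGd : G.IsHomogeneous d)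
    (hd : 2 ≤ d) {h : MvPolynomial (Fin 3) K} {e : ℕ} (hh : h.IsHomogeneous e) (hnd : ¬ G ∣ h) :
    ∃ q : Fin 2 → K, eval (aff q) G = 0 ∧ eval (aff q) h ≠ 0 := by
  classical
  by_contra hcon
  push Not at hcon
  obtain ⟨p0, hp0⟩ := TT.exists_pt hGd hG.ne_zero
  have hw : ∀ i : Fin 1, Ord (aff ((fun _ => p0) i)) ((fun _ => 0 : Fin 1 → ℕ) i) G := by
    intro i
    refine ⟨van_zero _ _, fun h => hp0 ?_⟩
    exact van_one'.1 h
  have hinj : Function.Injective (fun _ : Fin 1 => p0) := Function.injective_of_subsingleton _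
  obtain ⟨Ls, Q, hC, hlen⟩ := exists_cfg hG hGd hd hinj hw (e + 1) (fun _ => e + 1) (by simp)
  have hcard := hC.card
  simp only [zero_mul, Finset.sum_const_zero, add_zero] at hcard
  have h0 : h ≠ 0 := fun h0 => hnd (by rw [h0]; exact dvd_zero _)
  have h1 := bezQ (P := fun _ : Fin 1 => p0) hinj (u := fun _ => 0) (w := fun _ => 0) hG hGd
    (fun j => van_zero _ _) h0 hh (fun j => van_zero _ _) hnd (fun j => hC.disj j) hC.zQ
    (fun q hq => hcon q (hC.zQ q hq))
  simp only [mul_zero, Finset.sum_const_zero, zero_add] at h1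
  rw [hcard, hlen] at h1
  nlinarith

/-- The points with one more point. -/
def app1 {K : Type} {r : ℕ} (P : Fin (r + 4) → Fin 2 → K) (q : Fin 2 → K) :
    Fin (r + 1 + 4) → Fin 2 → K :=
  fun j => if h : j.1 < r + 4 then P ⟨j.1, h⟩ else q

theorem app1_res {K : Type} {r : ℕ} (P : Fin (r + 4) → Fin 2 → K) (q : Fin 2 → K) :
    res1 (app1 P q) = P := by
  funext j
  unfold res1 app1
  rw [dif_pos j.2]

theorem app1_last {K : Type} {r : ℕ} (P : Fin (r + 4) → Fin 2 → K) (q : Fin 2 → K) :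
    app1 P q ⟨r + 4, by omega⟩ = q := by
  unfold app1
  rw [dif_neg]
  exact Nat.lt_irrefl (r + 4)

theorem mem_app1 {K : Type} [Field K] {r : ℕ} {P : Fin (r + 4) → Fin 2 → K} {q : Fin 2 → K}
    {w : Fin (r + 4) → ℕ} {d : ℕ} {f : MvPolynomial (Fin 3) K} :
    f ∈ VS (fun j => aff (app1 P q j)) (ext1 w 1) d ↔
      f ∈ VS (fun j => aff (P j)) w d ∧ eval (aff q) f = 0 := by
  have h0 := ext1_zero (app1 P q) w d
  rw [app1_res] at h0
  rw [← h0, mem_VS, mem_VS]
  constructor
  · rintro ⟨h1, h2⟩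
    refine ⟨⟨h1, fun j => ?_⟩, ?_⟩
    · refine van_mono ?_ (h2 j)
      unfold ext1
      split_ifs <;> omega
    · have h3 := h2 ⟨r + 4, by omega⟩
      rw [ext1_last, app1_last] at h3
      exact van_one'.1 h3
  · rintro ⟨⟨h1, h2⟩, h3⟩
    refine ⟨h1, fun j => ?_⟩
    by_cases hj : j.1 < r + 4
    · have h4 := h2 j
      have h5 : ext1 w 1 j = ext1 w 0 j := by
        unfold ext1
        rw [dif_pos hj, dif_pos hj]
      rw [h5]
      exact h4
    · have h4 : j = ⟨r + 4, by omega⟩ := Fin.ext (by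
        have := j.2
        show j.1 = r + 4
        omega)
      rw [h4, ext1_last, app1_last]
      exact van_one'.2 h3

/-- The number of double and simple points. -/
def nd {s : ℕ} (S : Finset (Fin s)) (w : Fin s → ℕ) : ℕ :=
  2 * (Finset.univ.filter fun j => j ∉ S ∧ w j = 2).card +
    (Finset.univ.filter fun j => j ∉ S ∧ w j = 1).card

theorem nd_sum {s : ℕ} (S : Finset (Fin s)) (w : Fin s → ℕ) : nd S w =
    ∑ j, if j ∈ S then 0 else if w j = 2 then 2 else if w j = 1 then 1 else 0 := by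
  classical
  unfold nd
  rw [Finset.card_filter, Finset.card_filter, Finset.mul_sum, ← Finset.sum_add_distrib]
  refine Finset.sum_congr rfl fun j _ => ?_
  by_cases h1 : j ∈ S
  · simp [h1]
  · by_cases h2 : w j = 2
    · simp [h1, h2]
    · by_cases h3 : w j = 1
      · simp [h1, h3]
      · simp [h1, h2, h3]

/-- The special index set with one more point. -/
def emb1 {r : ℕ} (S : Finset (Fin (r + 4))) : Finset (Fin (r + 1 + 4)) :=
  S.map ⟨fun j => ⟨j.1, by omega⟩, fun a b h => Fin.ext (Fin.mk.inj h)⟩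

theorem mem_emb1 {r : ℕ} {S : Finset (Fin (r + 4))} {j : Fin (r + 1 + 4)} :
    j ∈ emb1 S ↔ ∃ h : j.1 < r + 4, (⟨j.1, h⟩ : Fin (r + 4)) ∈ S := by
  unfold emb1
  rw [Finset.mem_map]
  constructor
  · rintro ⟨i, hi, hij⟩
    have h1 : i.1 = j.1 := congrArg Fin.val hij
    refine ⟨by rw [← h1]; exact i.2, ?_⟩
    have h2 : (⟨j.1, by rw [← h1]; exact i.2⟩ : Fin (r + 4)) = i := Fin.ext h1.symm
    rw [h2]
    exact hi
  · rintro ⟨h, hS⟩
    exact ⟨⟨j.1, h⟩, hS, rfl⟩

theorem nd_ext {r : ℕ} (S : Finset (Fin (r + 4))) (w : Fin (r + 4) → ℕ) :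
    nd (emb1 S) (ext1 w 1) = nd S w + 1 := by
  classical
  rw [nd_sum, nd_sum]
  have h1 := Fin.sum_univ_castSucc (n := r + 4) (fun j : Fin (r + 4 + 1) =>
    if (j : Fin (r + 1 + 4)) ∈ emb1 S then 0 else if ext1 w 1 j = 2 then 2 else
      if ext1 w 1 j = 1 then 1 else 0)
  refine h1.trans ?_
  congr 1
  · refine Finset.sum_congr rfl fun j _ => ?_
    have e1 : ext1 w 1 j.castSucc = w j := by
      unfold ext1
      have hlt : (j.castSucc : Fin (r + 4 + 1)).1 < r + 4 := j.2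
      exact dif_pos hlt
    have e2 : ((j.castSucc : Fin (r + 4 + 1)) : Fin (r + 1 + 4)) ∈ emb1 S ↔ j ∈ S := by
      rw [mem_emb1]
      constructor
      · rintro ⟨h, hS⟩
        exact hS
      · intro hS
        exact ⟨j.2, hS⟩
    rw [e1]
    by_cases hjS : j ∈ S
    · rw [if_pos (e2.2 hjS), if_pos hjS]
    · rw [if_neg (fun h => hjS (e2.1 h)), if_neg hjS]
  · have e1 : ext1 w 1 (Fin.last (r + 4)) = 1 := by
      unfold ext1
      rw [dif_neg]
      exact Nat.lt_irrefl (r + 4)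
    have e2 : ((Fin.last (r + 4) : Fin (r + 4 + 1)) : Fin (r + 1 + 4)) ∉ emb1 S := by
      rw [mem_emb1]
      rintro ⟨h, -⟩
      exact Nat.lt_irrefl (r + 4) h
    rw [if_neg e2, e1]
    rfl

theorem al_ext {r : ℕ} (S : Finset (Fin (r + 4))) (w : Fin (r + 4) → ℕ) :
    al (emb1 S) (ext1 w 1) = ext1 (al S w) 0 := by
  funext j
  by_cases hj : j.1 < r + 4
  · have e1 : ext1 w 1 j = w ⟨j.1, hj⟩ := dif_pos hj
    have e2 : ext1 (al S w) 0 j = al S w ⟨j.1, hj⟩ := dif_pos hj
    rw [e2]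
    unfold al
    rw [e1]
    by_cases hS : (⟨j.1, hj⟩ : Fin (r + 4)) ∈ S
    · rw [if_pos hS, if_pos (mem_emb1.2 ⟨hj, hS⟩)]
    · rw [if_neg hS, if_neg (fun h => hS (mem_emb1.1 h).2)]
  · have e1 : ext1 w 1 j = 1 := dif_neg hj
    have e2 : ext1 (al S w) 0 j = 0 := dif_neg hj
    rw [e2]
    unfold al
    rw [e1, if_neg (fun h => hj (mem_emb1.1 h).1)]

/-- The lower bound. -/
theorem spread {d : ℕ} (hd : 2 ≤ d) {K : Type} [Field K] [CharZero K] [IsAlgClosed K]
    {G : MvPolynomial (Fin 3) K} (hG : Irreducible G) :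
    ∀ (n r : ℕ) (w : Fin (r + 4) → ℕ) (S : Finset (Fin (r + 4))) (_ : ∀ j, j ∉ S → w j ≤ 2)
      (P : Fin (r + 4) → Fin 2 → K) (_ : G ∈ VS (fun j => aff (P j)) w d)
      (_ : Module.finrank K ↥(VS (fun j => aff (P j)) w d) = n + 1)
      (K0 : Type) [Field K0] [CharZero K0] (P0 : Fin (r + 4) → Fin 2 → K0)
      (_ : AlgebraicIndependent ℚ (fun ij : Fin (r + 4) × Fin 2 => P0 ij.1 ij.2))
      (_ : Module.finrank K0 ↥(VS (fun j => aff (P0 j)) w d) = n + 1),
      n + 1 + nd S w ≤ Module.finrank K0 ↥(VS (fun j => aff (P0 j)) (al S w) d) := by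
  classical
  intro n
  induction n with
  | zero =>
    intro r w S hS P hGm h1 K0 _ _ P0 hP0 h2
    obtain ⟨f, hf, hf0⟩ := exists_mem (show 0 < Module.finrank K0
      ↥(VS (fun j => aff (P0 j)) w d) by omega)
    have hsq := sq_of_special hP0 h1 hGm hG.ne_zero hG.squarefree hf hf0
    have h3 := tlem_one hP0 h2 hf hf0 hsq S hS
    unfold nd al
    omega
  | succ n ih =>
    intro r w S hS P hGm h1 K0 _ _ P0 hP0 h2
    have hfin := vs_fin (fun j => aff (P j)) w d
    -- a member which is not a multiple of `G`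
    obtain ⟨h, hh, hnd⟩ : ∃ h ∈ VS (fun j => aff (P j)) w d, ¬ G ∣ h := by
      by_contra hcon
      push Not at hcon
      have hM := mult_finite G 0
      have h3 : VS (fun j => aff (P j)) w d ≤ mult G 0 := by
        intro f hf
        exact mem_mult ((mem_VS _ _ _ _).1 hGm).1 hG.ne_zero ((mem_VS _ _ _ _).1 hf).1
          (hcon f hf) fun _ => by omega
      have h4 := Submodule.finrank_mono h3
      rw [mult_finrank hG.ne_zero, h1] at h4
      have h5 : (0 + 2).choose 2 = 1 := rfl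
      omega
    obtain ⟨q, hq1, hq2⟩ := exists_point_on hG ((mem_VS _ _ _ _).1 hGm).1 hd
      ((mem_VS _ _ _ _).1 hh).1 hnd
    have hPq : Module.finrank K ↥(VS (fun j => aff (app1 P q j)) (ext1 w 1) d) = n + 1 := by
      have h0 := ext1_zero (app1 P q) w d
      rw [app1_res] at h0
      have h3 := simple_le (app1 P q) (ext1_last w 0) d
      rw [ext1_update, h0, h1] at h3
      have h4 : VS (fun j => aff (app1 P q j)) (ext1 w 1) d < VS (fun j => aff (P j)) w d := by
        refine lt_of_le_of_ne (fun f hf => (mem_app1.1 hf).1) fun heq => ?_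
        rw [← heq] at hh
        exact hq2 (mem_app1.1 hh).2
      have h5 := Submodule.finrank_lt_finrank_of_lt h4
      omega
    obtain ⟨K1, i1, i2, P1, hP1⟩ := exists_generic (r + 1 + 4)
    have hP1' := ext1_generic hP1
    have e1 := gen_eq hP1' hP0 w d
    rw [h2] at e1
    have e2 := simple_drop hP1 (ext1_last w 0) (d := d) (by rw [ext1_zero, e1]; omega)
    have e3 := simple_le P1 (ext1_last w 0) d
    rw [ext1_update, ext1_zero, e1] at e2 e3
    have h6 := ih (r + 1) (ext1 w 1) (emb1 S) (by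
      intro j hj
      unfold ext1
      split_ifs with hj2
      · exact hS _ fun hjS => hj (mem_emb1.2 ⟨hj2, hjS⟩)
      · omega) (app1 P q) (mem_app1.2 ⟨hGm, hq1⟩) hPq K1 P1 hP1 (by omega)
    rw [nd_ext, al_ext, ext1_zero, gen_eq hP1' hP0] at h6
    omega

/-- Prime divisors. -/
theorem primeA {K : Type} [Field K] [CharZero K] [IsAlgClosed K] {r e : ℕ}
    {w : Fin (r + 4) → ℕ} {S : Finset (Fin (r + 4))} (hS : ∀ j, j ∉ S → w j ≤ 2)
    (hsum : ∑ j ∈ S, w j < 3 * e) {P : Fin (r + 4) → Fin 2 → K}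
    (hP : AlgebraicIndependent ℚ (fun ij : Fin (r + 4) × Fin 2 => P ij.1 ij.2))
    {G : MvPolynomial (Fin 3) K} (hG : Irreducible G) (hGe : G.IsHomogeneous e)
    (hord : ∀ j, Ord (aff (P j)) (w j) G) :
    (Module.finrank K ↥(VS (fun j => aff (P j)) w e) : ℤ) = chi e w ∧
      (ip e w e w < 0 → ip e w e w = -1 ∧ kk e w = 1) := by
  classical
  rcases Nat.lt_or_ge e 2 with he | he
  · have he0 := deg_pos hG hGe
    refine prime9 (S := ∅) (by simp) (fun j _ => ?_) hP hG hGe hord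
    have := van_le hG.ne_zero hGe (hord j).1
    omega
  have hGm : G ∈ VS (fun j => aff (P j)) w e := (mem_VS _ _ _ _).2 ⟨hGe, fun j => (hord j).1⟩
  have hpos := pos_of_mem hGm hG.ne_zero
  obtain ⟨n, hn⟩ : ∃ n, Module.finrank K ↥(VS (fun j => aff (P j)) w e) = n + 1 :=
    ⟨Module.finrank K ↥(VS (fun j => aff (P j)) w e) - 1, by omega⟩
  have h1 := spread he hG n r w S hS P hGm hn K P hP hn
  have h2 := adj hG hGe he (inj_of_alg hP) hord S hsum
  have h3 : (Module.finrank K ↥(VS (fun j => aff (P j)) w e) : ℤ) = chi e w := by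
    refine le_antisymm ?_ (chi_le_dim P e w)
    rw [chi_cast]
    have h4 : ∑ j, (w j + 1).choose 2 = nd S w +
        ∑ j, (if j ∈ S then (w j + 1).choose 2 else (w j).choose 2) := by
      rw [nd_sum, ← Finset.sum_add_distrib]
      refine Finset.sum_congr rfl fun j _ => ?_
      by_cases hjS : j ∈ S
      · rw [if_pos hjS, if_pos hjS, zero_add]
      · rw [if_neg hjS, if_neg hjS]
        have := hS j hjS
        rcases Nat.lt_or_ge (w j) 1 with h5 | h5
        · have : w j = 0 := by omega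
          rw [this]
          rfl
        · rcases Nat.lt_or_ge (w j) 2 with h6 | h6
          · have : w j = 1 := by omega
            rw [this]
            rfl
          · have : w j = 2 := by omega
            rw [this]
            rfl
    omega
  refine ⟨h3, fun hneg => ?_⟩
  rcases irr_red e P hP w G hG hGe hord with ⟨c1, c2, c3⟩ | ⟨P1, e1, w1, G1, a1, a2, a3, a4, a5,
    a6, a7, a8, a9⟩
  · exact ⟨c2, c3⟩
  · exfalso
    obtain ⟨q1, q2, q3⟩ := quad_inv a5
    simp only at q1 q2 q3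
    have h4 := two_chi e1 w1
    have h5 : 0 ≤ kk e1 w1 := by omega
    rw [kk_cast] at h5
    have h6 := red_ip a6 (fun j => van_le a2.ne_zero a3 (a4 j).1) (by omega)
    omega

end Pool.Agent.TH167.DD
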